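import Mathlib

/-!
# Blaschke factors of the disc in half-plane parameters
-/

set_option autoImplicit false

open Metric Set Filter Topology Complex
open scoped ComplexConjugate

namespace Q74.InnerIter

/-- The Blaschke factor with the zero `(α - 1)/(α + 1)`, equal to `1` at `1`. -/
noncomputable def b (α Z : ℂ) : ℂ := ((1 - α) + (1 + α) * Z) / ((1 + conj α) + (1 - conj α) * Z)

/-- the denominator -/
noncomputable def den (α Z : ℂ) : ℂ := (1 + conj α) + (1 - conj α) * Z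

/-- the numerator -/
noncomputable def num (α Z : ℂ) : ℂ := (1 - α) + (1 + α) * Z

lemma b_eq (α Z : ℂ) : b α Z = num α Z / den α Z := rfl

lemma normSq_den_sub (α Z : ℂ) :
    normSq (den α Z) - normSq (num α Z) = 4 * α.re * (1 - normSq Z) := by
  unfold den num
  simp only [normSq_apply, add_re, add_im, sub_re, sub_im, mul_re, mul_im, one_re, one_im,
    conj_re, conj_im]
  ring

lemma den_ne {α Z : ℂ} (hα : 0 < α.re) (hZ : ‖Z‖ ≤ 1) : den α Z ≠ 0 := by
  intro h
  have h1 : normSq (1 + conj α) = normSq (1 - conj α) * normSq Z := by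
    have h2 : 1 + conj α = -((1 - conj α) * Z) := by
      unfold den at h
      linear_combination h
    rw [h2, normSq_neg, normSq_mul]
  have h2 : normSq (1 - conj α) < normSq (1 + conj α) := by
    simp only [normSq_apply, add_re, add_im, sub_re, sub_im, one_re, one_im, conj_re, conj_im]
    nlinarith
  have h3 : normSq Z ≤ 1 := by
    rw [normSq_eq_norm_sq]
    nlinarith [norm_nonneg Z]
  have h4 : 0 ≤ normSq (1 - conj α) := normSq_nonneg _
  nlinarith

lemma norm_b_le {α Z : ℂ} (hα : 0 < α.re) (hZ : ‖Z‖ ≤ 1) : ‖b α Z‖ ≤ 1 := by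
  rw [b_eq, norm_div, div_le_one (norm_pos_iff.2 (den_ne hα hZ))]
  have h1 := normSq_den_sub α Z
  have h3 : normSq Z ≤ 1 := by
    rw [normSq_eq_norm_sq]
    nlinarith [norm_nonneg Z]
  rw [normSq_eq_norm_sq, normSq_eq_norm_sq] at h1
  have h4 : ‖num α Z‖ ^ 2 ≤ ‖den α Z‖ ^ 2 := by nlinarith
  exact (sq_le_sq₀ (norm_nonneg _) (norm_nonneg _)).1 h4

lemma norm_b_eq {α Z : ℂ} (hα : 0 < α.re) (hZ : ‖Z‖ = 1) : ‖b α Z‖ = 1 := by
  rw [b_eq, norm_div, div_eq_one_iff_eq (norm_pos_iff.2 (den_ne hα hZ.le)).ne']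
  have h1 := normSq_den_sub α Z
  have h3 : normSq Z = 1 := by
    rw [normSq_eq_norm_sq, hZ, one_pow]
  rw [h3, sub_self, mul_zero, normSq_eq_norm_sq, normSq_eq_norm_sq] at h1
  have h4 : ‖num α Z‖ ^ 2 = ‖den α Z‖ ^ 2 := by linarith
  exact (sq_eq_sq₀ (norm_nonneg _) (norm_nonneg _)).1 h4

lemma b_one (α : ℂ) : b α 1 = 1 := by
  unfold b
  have h1 : (1 - α) + (1 + α) * 1 = 2 := by ring
  have h2 : (1 + conj α) + (1 - conj α) * 1 = 2 := by ring
  rw [h1, h2, div_self two_ne_zero]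

lemma b_neg_one {α : ℂ} (hα : 0 < α.re) : b α (-1) = -α / conj α := by
  have hc : conj α ≠ 0 := by
    intro h
    have := congrArg re h
    rw [conj_re] at this
    simp only [zero_re] at this
    linarith
  unfold b
  have h1 : (1 - α) + (1 + α) * -1 = -2 * α := by ring
  have h2 : (1 + conj α) + (1 - conj α) * -1 = 2 * conj α := by ring
  rw [h1, h2]
  field_simp

lemma b_sub_one {α Z : ℂ} (hα : 0 < α.re) (hZ : ‖Z‖ ≤ 1) :
    b α Z - 1 = -(2 * (α.re : ℂ)) * (1 - Z) / den α Z := by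
  have hd := den_ne hα hZ
  rw [b_eq, div_sub_one hd]
  congr 1
  have h1 : (2 * (α.re : ℂ)) = α + conj α := by
    rw [Complex.add_conj]
    push_cast
    ring
  rw [h1]
  unfold num den
  ring

/-- smallness away from `-1` -/
lemma norm_b_sub_one_le {α Z : ℂ} {δ : ℝ} (hα : 0 < α.re) (hZ : ‖Z‖ ≤ 1) (hδ : 0 < δ)
    (hZδ : δ ≤ ‖1 + Z‖) (hαδ : ‖α‖ ≤ δ / 4) : ‖b α Z - 1‖ ≤ 8 * ‖α‖ / δ := by
  have hd := den_ne hα hZ
  have h1Z : ‖1 - Z‖ ≤ 2 := by
    calc ‖1 - Z‖ ≤ ‖(1 : ℂ)‖ + ‖Z‖ := norm_sub_le _ _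
      _ ≤ 2 := by rw [norm_one]; linarith
  have h1 : δ / 2 ≤ ‖den α Z‖ := by
    have h2 : den α Z = (1 + Z) + conj α * (1 - Z) := by unfold den; ring
    have h3 : ‖1 + Z‖ - ‖conj α * (1 - Z)‖ ≤ ‖den α Z‖ := by
      rw [h2]
      have := norm_sub_le_norm_add (1 + Z) (conj α * (1 - Z))
      linarith
    have h4 : ‖conj α * (1 - Z)‖ ≤ δ / 4 * 2 := by
      rw [norm_mul, RCLike.norm_conj]
      have := norm_nonneg α
      have := norm_nonneg (1 - Z)
      nlinarith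
    linarith
  have h5 : ‖-(2 * (α.re : ℂ)) * (1 - Z)‖ ≤ 4 * ‖α‖ := by
    rw [norm_mul, norm_neg, norm_mul, Complex.norm_ofNat, Complex.norm_real, Real.norm_eq_abs]
    have := abs_re_le_norm α
    have := abs_nonneg α.re
    have := norm_nonneg (1 - Z)
    nlinarith
  rw [b_sub_one hα hZ, norm_div]
  rw [div_le_div_iff₀ (norm_pos_iff.2 hd) hδ]
  have := norm_nonneg α
  nlinarith [norm_nonneg (-(2 * (α.re : ℂ)) * (1 - Z))]

/-- smallness on the radius ending at `-1` -/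
lemma norm_b_radial_le {α : ℂ} {s : ℝ} (hα : 0 < α.re) (hi : α.im ≠ 0) (hs0 : 0 ≤ s) (hs1 : s ≤ 1) :
    ‖b α (-(s : ℂ)) - 1‖ ≤ 2 * α.re / |α.im| := by
  have hZ : ‖(-(s : ℂ))‖ ≤ 1 := by
    rw [norm_neg, Complex.norm_real, Real.norm_eq_abs, abs_of_nonneg hs0]
    exact hs1
  have hd := den_ne hα hZ
  have h1 : |α.im| * (1 + s) ≤ ‖den α (-(s : ℂ))‖ := by
    refine le_trans (le_of_eq ?_) (abs_im_le_norm _)
    have : (den α (-(s : ℂ))).im = -(α.im * (1 + s)) := by
      unfold den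
      simp
      ring
    rw [this, abs_neg, abs_mul, abs_of_nonneg (by linarith : (0 : ℝ) ≤ 1 + s)]
  have hi' : 0 < |α.im| := abs_pos.2 hi
  rw [b_sub_one hα hZ, norm_div, div_le_div_iff₀ (norm_pos_iff.2 hd) hi']
  have h5 : ‖-(2 * (α.re : ℂ)) * (1 - -(s : ℂ))‖ = 2 * α.re * (1 + s) := by
    have : -(2 * (α.re : ℂ)) * (1 - -(s : ℂ)) = ((-(2 * α.re * (1 + s)) : ℝ) : ℂ) := by
      push_cast
      ring
    rw [this, Complex.norm_real, Real.norm_eq_abs, abs_neg, abs_of_nonneg (by positivity)]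
  rw [h5]
  nlinarith

lemma b_continuousOn {α : ℂ} (hα : 0 < α.re) : ContinuousOn (b α) (closedBall 0 1) := by
  unfold b
  apply ContinuousOn.div (by fun_prop) (by fun_prop)
  intro Z hZ
  exact den_ne hα (by rwa [mem_closedBall_zero_iff] at hZ)

lemma b_differentiableOn {α : ℂ} (hα : 0 < α.re) : DifferentiableOn ℂ (b α) (ball 0 1) := by
  unfold b
  apply DifferentiableOn.div (by fun_prop) (by fun_prop)
  intro Z hZ
  exact den_ne hα (by rw [mem_ball_zero_iff] at hZ; exact hZ.le)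

/-- `G` has a nonnegative continuous argument on the arc from `1` to `exp (iπ/4)`. -/
def HasLift (G : ℂ → ℂ) : Prop :=
  ∃ Θ : ℝ → ℝ, Continuous Θ ∧ Θ 0 = 0 ∧ (∀ y, 0 ≤ Θ y) ∧
    ∀ y ∈ Icc 0 (Real.pi / 4), G (exp (y * I)) = exp (Θ y * I)

lemma HasLift.mul {G H : ℂ → ℂ} (hG : HasLift G) (hH : HasLift H) :
    HasLift fun Z => G Z * H Z := by
  obtain ⟨Θ, h1, h2, h3, h4⟩ := hG
  obtain ⟨Ψ, k1, k2, k3, k4⟩ := hH
  refine ⟨fun y => Θ y + Ψ y, h1.add k1, by simp [h2, k2], fun y => add_nonneg (h3 y) (k3 y), ?_⟩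
  intro y hy
  show G _ * H _ = _
  rw [h4 y hy, k4 y hy, ← Complex.exp_add]
  congr 1
  push_cast
  ring

lemma hasLift_one : HasLift fun _ => 1 :=
  ⟨fun _ => 0, continuous_const, rfl, fun _ => le_rfl, fun y _ => by simp⟩

lemma exp_two_arctan (u : ℝ) :
    exp ((2 * Real.arctan u : ℝ) * I) = (1 + u * I) / (1 - u * I) := by
  have hden : (1 : ℂ) - u * I ≠ 0 := by
    intro h
    have := congrArg re h
    simp at this
  rw [eq_div_iff hden]
  have hc : Real.cos (Real.arctan u) ≠ 0 := (Real.cos_arctan_pos u).ne'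
  have hs : Real.sin (Real.arctan u) = u * Real.cos (Real.arctan u) := by
    have := Real.tan_arctan u
    rw [Real.tan_eq_sin_div_cos, div_eq_iff hc] at this
    exact this
  have hcs : Real.cos (Real.arctan u) ^ 2 * (1 + u ^ 2) = 1 := by
    have := Real.sin_sq_add_cos_sq (Real.arctan u)
    rw [hs] at this
    nlinarith
  obtain ⟨c, hcdef⟩ : ∃ c : ℝ, c = Real.cos (Real.arctan u) := ⟨_, rfl⟩
  rw [← hcdef] at hs hcs
  have h1 : exp ((2 * Real.arctan u : ℝ) * I) =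
      (c * (1 + u * I)) * (c * (1 + u * I)) := by
    have h2 : (((2 * Real.arctan u : ℝ) : ℂ) * I) = (Real.arctan u : ℂ) * I + (Real.arctan u : ℂ) * I := by
      push_cast
      ring
    have h3 : exp ((Real.arctan u : ℂ) * I) = c * (1 + u * I) := by
      rw [Complex.exp_mul_I, ← Complex.ofReal_cos, ← Complex.ofReal_sin, hs, ← hcdef]
      push_cast
      ring
    rw [h2, Complex.exp_add, h3]
  have h4 : (c : ℂ) ^ 2 * (1 + u ^ 2) = 1 := by exact_mod_cast hcs
  rw [h1]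
  have h5 : I ^ 2 = -1 := I_sq
  calc (c : ℂ) * (1 + u * I) * (c * (1 + u * I)) * (1 - u * I)
      = (c : ℂ) ^ 2 * (1 - u ^ 2 * I ^ 2) * (1 + u * I) := by ring
    _ = (c : ℂ) ^ 2 * (1 + u ^ 2) * (1 + u * I) := by rw [h5]; ring
    _ = 1 + u * I := by rw [h4, one_mul]

lemma b_exp (α : ℂ) (y : ℝ) :
    b α (exp (y * I)) =
      ((Real.cos (y / 2) - α.im * Real.sin (y / 2) : ℝ) + (α.re * Real.sin (y / 2) : ℝ) * I) /
      ((Real.cos (y / 2) - α.im * Real.sin (y / 2) : ℝ) - (α.re * Real.sin (y / 2) : ℝ) * I) := by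
  obtain ⟨C, hC⟩ : ∃ C : ℝ, C = Real.cos (y / 2) := ⟨_, rfl⟩
  obtain ⟨S, hS⟩ : ∃ S : ℝ, S = Real.sin (y / 2) := ⟨_, rfl⟩
  have hCS : (C : ℂ) ^ 2 + (S : ℂ) ^ 2 = 1 := by
    have := Real.cos_sq_add_sin_sq (y / 2)
    rw [← hC, ← hS] at this
    exact_mod_cast this
  have hh : exp (y * I) = ((C : ℂ) + S * I) * (C + S * I) := by
    have h2 : ((y : ℂ) * I) = ((y / 2 : ℝ) : ℂ) * I + ((y / 2 : ℝ) : ℂ) * I := by
      push_cast
      ring
    have h3 : exp (((y / 2 : ℝ) : ℂ) * I) = C + S * I := by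
      rw [Complex.exp_mul_I, ← Complex.ofReal_cos, ← Complex.ofReal_sin, ← hC, ← hS]
    rw [h2, Complex.exp_add, h3]
  have hne : ((C : ℂ) + S * I) ≠ 0 := by
    intro h
    have : ((C : ℂ) + S * I) * (C - S * I) = 1 := by
      linear_combination hCS - (S : ℂ) ^ 2 * I_sq
    rw [h, zero_mul] at this
    exact zero_ne_one this
  have hprod : ((C : ℂ) + S * I) * (C - S * I) = 1 := by
    linear_combination hCS - (S : ℂ) ^ 2 * I_sq
  have hα : α = α.re + α.im * I := (re_add_im α).symm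
  have hα' : conj α = α.re - α.im * I := by
    apply Complex.ext <;> simp
  rw [b_eq, hh, ← hC, ← hS]
  have hnum : num α (((C : ℂ) + S * I) * (C + S * I)) =
      2 * (C + S * I) * ((C - α.im * S : ℝ) + (α.re * S : ℝ) * I) := by
    unfold num
    push_cast
    rw [show (1 - α) + (1 + α) * (((C : ℂ) + S * I) * (C + S * I)) =
      (1 - (α.re + α.im * I)) + (1 + (α.re + α.im * I)) * (((C : ℂ) + S * I) * (C + S * I)) by
        rw [re_add_im]]
    linear_combination (-(1 - (α.re + α.im * I : ℂ))) * hprod +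
      (2 * α.im * S * (C + S * I) : ℂ) * I_sq
  have hden : den α (((C : ℂ) + S * I) * (C + S * I)) =
      2 * (C + S * I) * ((C - α.im * S : ℝ) - (α.re * S : ℝ) * I) := by
    unfold den
    push_cast
    rw [hα']
    linear_combination (-(1 + (α.re - α.im * I : ℂ))) * hprod +
      (2 * α.im * S * (C + S * I) : ℂ) * I_sq
  rw [hnum, hden]
  rw [mul_div_mul_left _ _ (mul_ne_zero two_ne_zero hne)]

lemma hasLift_b {α : ℂ} (hα : 0 < α.re) (hα1 : ‖α‖ < 1) : HasLift (b α) := by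
  obtain ⟨c, hc⟩ : ∃ c : ℝ → ℝ, c = fun y => max 0 (min y (Real.pi / 4)) := ⟨_, rfl⟩
  have hπ := Real.pi_pos
  have hcc : Continuous c := by rw [hc]; fun_prop
  have hc0 : ∀ y, 0 ≤ c y := fun y => by rw [hc]; exact le_max_left _ _
  have hc1 : ∀ y, c y ≤ Real.pi / 4 := fun y => by
    rw [hc]
    exact max_le (by positivity) (min_le_right _ _)
  have hsin : ∀ y, 0 ≤ Real.sin (c y / 2) := fun y =>
    Real.sin_nonneg_of_nonneg_of_le_pi (by linarith [hc0 y]) (by linarith [hc1 y])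
  have hcs : ∀ y, Real.sin (c y / 2) < Real.cos (c y / 2) := by
    intro y
    rw [← Real.cos_pi_div_two_sub]
    apply Real.cos_lt_cos_of_nonneg_of_le_pi_div_two
    · linarith [hc0 y]
    · linarith [hc0 y]
    · linarith [hc1 y]
  have him : |α.im| < 1 := (abs_im_le_norm α).trans_lt hα1
  have hpos : ∀ y, 0 < Real.cos (c y / 2) - α.im * Real.sin (c y / 2) := by
    intro y
    have h1 : α.im * Real.sin (c y / 2) ≤ 1 * Real.sin (c y / 2) :=
      mul_le_mul_of_nonneg_right ((le_abs_self _).trans him.le) (hsin y)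
    linarith [hcs y]
  refine ⟨fun y => 2 * Real.arctan (α.re * Real.sin (c y / 2) /
    (Real.cos (c y / 2) - α.im * Real.sin (c y / 2))), ?_, ?_, ?_, ?_⟩
  · apply Continuous.mul continuous_const
    apply Real.continuous_arctan.comp
    apply Continuous.div (by fun_prop) (by fun_prop)
    intro y
    exact (hpos y).ne'
  · have : c 0 = 0 := by
      rw [hc]
      have : min 0 (Real.pi / 4) = 0 := min_eq_left (by positivity)
      simp [this]
    simp [this]
  · intro y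
    have h1 : 0 ≤ α.re * Real.sin (c y / 2) / (Real.cos (c y / 2) - α.im * Real.sin (c y / 2)) :=
      div_nonneg (mul_nonneg hα.le (hsin y)) (hpos y).le
    have := Real.arctan_nonneg.2 h1
    positivity
  · intro y hy
    have hcy : c y = y := by
      rw [hc]
      have : min y (Real.pi / 4) = y := min_eq_left hy.2
      simp [this, hy.1]
    rw [b_exp, exp_two_arctan]
    have h1 := hpos y
    rw [hcy] at h1 ⊢
    obtain ⟨D, hD⟩ : ∃ D : ℝ, D = Real.cos (y / 2) - α.im * Real.sin (y / 2) := ⟨_, rfl⟩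
    rw [← hD] at h1 ⊢
    have hD0 : (D : ℂ) ≠ 0 := by exact_mod_cast h1.ne'
    have h2 : (1 : ℂ) + ((α.re * Real.sin (y / 2) / D : ℝ) : ℂ) * I =
        ((D : ℂ) + ((α.re * Real.sin (y / 2) : ℝ) : ℂ) * I) / D := by
      push_cast
      field_simp
    have h3 : (1 : ℂ) - ((α.re * Real.sin (y / 2) / D : ℝ) : ℂ) * I =
        ((D : ℂ) - ((α.re * Real.sin (y / 2) : ℝ) : ℂ) * I) / D := by
      push_cast
      field_simp
    rw [h2, h3, div_div_div_cancel_right₀ hD0]

end Q74.InnerIter
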