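import Mathlib
import Pool.Agent.Q74.InnerIter.Factor

/-!
# One stage of the construction
-/

set_option autoImplicit false

open Metric Set Filter Topology Complex
open scoped ComplexConjugate

namespace Q74.InnerIter

/-- The properties of the finite products. -/
structure Good (G : ℂ → ℂ) : Prop where
  cont : ContinuousOn G (closedBall 0 1)
  diff : DifferentiableOn ℂ G (ball 0 1)
  le : ∀ Z, ‖Z‖ ≤ 1 → ‖G Z‖ ≤ 1
  eq : ∀ Z, ‖Z‖ = 1 → ‖G Z‖ = 1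
  one : G 1 = 1
  neg : G (-1) = 1
  lift : HasLift G

lemma good_one : Good fun _ => 1 :=
  ⟨continuousOn_const, differentiableOn_const _, fun _ _ => by simp, fun _ _ => by simp, rfl, rfl,
    hasLift_one⟩

/-- the parameter `-iρ e^{ix/2}` -/
noncomputable def par (x ρ : ℝ) : ℂ := ⟨ρ * Real.sin (x / 2), -(ρ * Real.cos (x / 2))⟩

/-- the pair of factors -/
noncomputable def pair (x ρ μ : ℝ) (Z : ℂ) : ℂ := b (par x ρ) Z * b (conj (par x μ)) Z

lemma par_re (x ρ : ℝ) : (par x ρ).re = ρ * Real.sin (x / 2) := rfl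
lemma par_im (x ρ : ℝ) : (par x ρ).im = -(ρ * Real.cos (x / 2)) := rfl

lemma norm_par (x : ℝ) {ρ : ℝ} (hρ : 0 ≤ ρ) : ‖par x ρ‖ = ρ := by
  have h1 : ‖par x ρ‖ ^ 2 = ρ ^ 2 := by
    rw [← normSq_eq_norm_sq, normSq_apply, par_re, par_im]
    have := Real.sin_sq_add_cos_sq (x / 2)
    linear_combination (ρ ^ 2) * this
  exact (sq_eq_sq₀ (norm_nonneg _) hρ).1 h1

lemma par_re_pos {x ρ : ℝ} (hx0 : 0 < x) (hx1 : x ≤ 1) (hρ : 0 < ρ) : 0 < (par x ρ).re := by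
  rw [par_re]
  apply mul_pos hρ
  apply Real.sin_pos_of_pos_of_lt_pi (by linarith)
  linarith [Real.pi_gt_three]

lemma cos_pos' {x : ℝ} (hx0 : 0 < x) (hx1 : x ≤ 1) : 0 < Real.cos (x / 2) :=
  Real.cos_pos_of_mem_Ioo ⟨by linarith [Real.pi_gt_three], by linarith [Real.pi_gt_three]⟩

lemma tan_le' {x : ℝ} (hx0 : 0 < x) (hx1 : x ≤ 1) : Real.sin (x / 2) ≤ x * Real.cos (x / 2) := by
  have h1 : Real.sin (x / 2) ≤ x / 2 := Real.sin_le (by linarith)
  have h2 : 1 - (x / 2) ^ 2 / 2 ≤ Real.cos (x / 2) := Real.one_sub_sq_div_two_le_cos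
  nlinarith

lemma radial_par {x ρ : ℝ} (hx0 : 0 < x) (hx1 : x ≤ 1) (hρ : 0 < ρ) {s : ℝ} (hs0 : 0 ≤ s)
    (hs1 : s ≤ 1) : ‖b (par x ρ) (-(s : ℂ)) - 1‖ ≤ 2 * x ∧
      ‖b (conj (par x ρ)) (-(s : ℂ)) - 1‖ ≤ 2 * x := by
  have h1 := par_re_pos hx0 hx1 hρ
  have h2 : (par x ρ).im ≠ 0 := by
    rw [par_im]
    exact neg_ne_zero.2 (mul_pos hρ (cos_pos' hx0 hx1)).ne'
  have h3 : |(par x ρ).im| = ρ * Real.cos (x / 2) := by
    rw [par_im, abs_neg, abs_of_pos (mul_pos hρ (cos_pos' hx0 hx1))]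
  have h4 : 2 * (par x ρ).re / |(par x ρ).im| ≤ 2 * x := by
    rw [h3, div_le_iff₀ (mul_pos hρ (cos_pos' hx0 hx1)), par_re]
    have := tan_le' hx0 hx1
    nlinarith
  constructor
  · exact (norm_b_radial_le h1 h2 hs0 hs1).trans h4
  · refine (norm_b_radial_le (α := conj (par x ρ)) ?_ ?_ hs0 hs1).trans ?_
    · rw [conj_re]; exact h1
    · rw [conj_im]; exact neg_ne_zero.2 h2
    · rw [conj_re, conj_im, abs_neg]; exact h4

lemma b_par_neg_one {x ρ : ℝ} (hx0 : 0 < x) (hx1 : x ≤ 1) (hρ : 0 < ρ) :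
    b (par x ρ) (-1) = exp (x * I) := by
  have h1 := par_re_pos hx0 hx1 hρ
  rw [b_neg_one h1]
  obtain ⟨C, hC⟩ : ∃ C : ℝ, C = Real.cos (x / 2) := ⟨_, rfl⟩
  obtain ⟨S, hS⟩ : ∃ S : ℝ, S = Real.sin (x / 2) := ⟨_, rfl⟩
  have hCS : (C : ℂ) ^ 2 + (S : ℂ) ^ 2 = 1 := by
    have := Real.cos_sq_add_sin_sq (x / 2)
    rw [← hC, ← hS] at this
    exact_mod_cast this
  have hh : exp (x * I) = ((C : ℂ) + S * I) * (C + S * I) := by
    have h2 : ((x : ℂ) * I) = ((x / 2 : ℝ) : ℂ) * I + ((x / 2 : ℝ) : ℂ) * I := by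
      push_cast
      ring
    have h3 : exp (((x / 2 : ℝ) : ℂ) * I) = C + S * I := by
      rw [Complex.exp_mul_I, ← Complex.ofReal_cos, ← Complex.ofReal_sin, ← hC, ← hS]
    rw [h2, Complex.exp_add, h3]
  have hp : par x ρ = ρ * (S - C * I) := by
    apply Complex.ext <;> simp [par, ← hC, ← hS]
  have hp' : conj (par x ρ) = ρ * (S + C * I) := by
    apply Complex.ext <;> simp [par, ← hC, ← hS]
  have hρ' : (ρ : ℂ) ≠ 0 := by exact_mod_cast hρ.ne'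
  have hne : (S : ℂ) + C * I ≠ 0 := by
    intro h
    have h3 : ((S : ℂ) + C * I) * (S - C * I) = 1 := by
      linear_combination hCS - (C : ℂ) ^ 2 * I_sq
    rw [h, zero_mul] at h3
    exact zero_ne_one h3
  rw [hp', hp, hh, div_eq_iff (mul_ne_zero hρ' hne)]
  linear_combination (-(ρ : ℂ) * (C + S * I) * I) * hCS +
    (-(ρ : ℂ) * (S + (C + S * I) * C * S)) * I_sq

lemma b_conj_neg_one {x ρ : ℝ} (hx0 : 0 < x) (hx1 : x ≤ 1) (hρ : 0 < ρ) :
    b (conj (par x ρ)) (-1) = exp (-(x * I)) := by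
  have h1 := par_re_pos hx0 hx1 hρ
  have h2 := b_par_neg_one hx0 hx1 hρ
  rw [b_neg_one h1] at h2
  rw [b_neg_one (by rw [conj_re]; exact h1), conj_conj, Complex.exp_neg, ← h2, inv_div,
    neg_div, div_neg]

/-- parameters of a pair -/
structure PairPar (x ρ μ : ℝ) : Prop where
  x0 : 0 < x
  x1 : x ≤ 1
  ρ0 : 0 < ρ
  ρ1 : ρ < 1
  μ0 : 0 < μ
  μρ : μ ≤ ρ

section
variable {x ρ μ : ℝ}

lemma PairPar.re1 (h : PairPar x ρ μ) : 0 < (par x ρ).re := par_re_pos h.x0 h.x1 h.ρ0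
lemma PairPar.re2 (h : PairPar x ρ μ) : 0 < (conj (par x μ)).re := by
  rw [conj_re]; exact par_re_pos h.x0 h.x1 h.μ0

lemma PairPar.norm_le (h : PairPar x ρ μ) {Z : ℂ} (hZ : ‖Z‖ ≤ 1) : ‖pair x ρ μ Z‖ ≤ 1 := by
  rw [pair, norm_mul]
  have h1 := norm_b_le h.re1 hZ
  have h2 := norm_b_le h.re2 hZ
  nlinarith [norm_nonneg (b (par x ρ) Z), norm_nonneg (b (conj (par x μ)) Z)]

lemma PairPar.norm_eq (h : PairPar x ρ μ) {Z : ℂ} (hZ : ‖Z‖ = 1) : ‖pair x ρ μ Z‖ = 1 := by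
  rw [pair, norm_mul, norm_b_eq h.re1 hZ, norm_b_eq h.re2 hZ, one_mul]

lemma norm_mul_sub_one_le {a c : ℂ} (hc : ‖c‖ ≤ 1) : ‖a * c - 1‖ ≤ ‖a - 1‖ + ‖c - 1‖ := by
  have h1 : a * c - 1 = (a - 1) * c + (c - 1) := by ring
  rw [h1]
  refine (norm_add_le _ _).trans ?_
  rw [norm_mul]
  nlinarith [norm_nonneg (a - 1)]

lemma PairPar.away (h : PairPar x ρ μ) {Z : ℂ} (hZ : ‖Z‖ ≤ 1) {δ : ℝ} (hδ : 0 < δ)
    (hZδ : δ ≤ ‖1 + Z‖) (hρδ : ρ ≤ δ / 4) : ‖pair x ρ μ Z - 1‖ ≤ 16 * ρ / δ := by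
  have h1 : ‖par x ρ‖ = ρ := norm_par x h.ρ0.le
  have h2 : ‖conj (par x μ)‖ = μ := by rw [RCLike.norm_conj]; exact norm_par x h.μ0.le
  have h3 := norm_b_sub_one_le h.re1 hZ hδ hZδ (by rw [h1]; exact hρδ)
  have h4 := norm_b_sub_one_le h.re2 hZ hδ hZδ (by rw [h2]; exact h.μρ.trans hρδ)
  rw [h1] at h3
  rw [h2] at h4
  have h5 : 8 * μ / δ ≤ 8 * ρ / δ := by
    have := h.μρ
    gcongr
  refine (norm_mul_sub_one_le (norm_b_le h.re2 hZ)).trans ?_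
  calc _ ≤ 8 * ρ / δ + 8 * ρ / δ := add_le_add h3 (h4.trans h5)
    _ = _ := by ring

lemma PairPar.radial (h : PairPar x ρ μ) {s : ℝ} (hs0 : 0 ≤ s) (hs1 : s ≤ 1) :
    ‖pair x ρ μ (-(s : ℂ)) - 1‖ ≤ 4 * x := by
  have hZ : ‖(-(s : ℂ))‖ ≤ 1 := by
    rw [norm_neg, Complex.norm_real, Real.norm_eq_abs, abs_of_nonneg hs0]
    exact hs1
  refine (norm_mul_sub_one_le (norm_b_le h.re2 hZ)).trans ?_
  have h1 := (radial_par h.x0 h.x1 h.ρ0 hs0 hs1).1
  have h2 := (radial_par h.x0 h.x1 h.μ0 hs0 hs1).2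
  linarith

lemma Good.mul_pair {G : ℂ → ℂ} (hG : Good G) (h : PairPar x ρ μ) :
    Good fun Z => G Z * pair x ρ μ Z where
  cont := hG.cont.mul ((b_continuousOn h.re1).mul (b_continuousOn h.re2))
  diff := hG.diff.mul ((b_differentiableOn h.re1).mul (b_differentiableOn h.re2))
  le := fun Z hZ => by
    rw [norm_mul]
    have h1 := hG.le Z hZ
    have h2 := h.norm_le hZ
    nlinarith [norm_nonneg (G Z), norm_nonneg (pair x ρ μ Z)]
  eq := fun Z hZ => by rw [norm_mul, hG.eq Z hZ, h.norm_eq hZ, one_mul]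
  one := by rw [hG.one, pair, b_one, b_one, one_mul, one_mul]
  neg := by
    rw [hG.neg, pair, b_par_neg_one h.x0 h.x1 h.ρ0, b_conj_neg_one h.x0 h.x1 h.μ0,
      ← Complex.exp_add, add_neg_cancel, Complex.exp_zero, one_mul]
  lift := hG.lift.mul ((hasLift_b h.re1 (by rw [norm_par x h.ρ0.le]; exact h.ρ1)).mul
    (hasLift_b h.re2 (by
      rw [RCLike.norm_conj, norm_par x h.μ0.le]
      exact h.μρ.trans_lt h.ρ1)))

end

/-! ### Shadowing and preorbits -/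

/-- Finite orbits depend continuously on the map and on the starting point. -/
lemma shadow {T : ℂ → ℂ} (hT : ContinuousOn T (closedBall 0 1)) (p : ℕ → ℂ)
    (hp : ∀ n, p n ∈ closedBall (0 : ℂ) 1) (hpT : ∀ n, p (n + 1) = T (p n)) (L : ℕ) :
    ∀ η : ℝ, 0 < η → ∃ δ : ℝ, 0 < δ ∧ ∀ y : ℕ → ℂ, (∀ n, y n ∈ closedBall (0 : ℂ) 1) →
      ‖y 0 - p 0‖ ≤ δ → (∀ n < L, ‖y n - p n‖ ≤ η → ‖y (n + 1) - T (y n)‖ ≤ δ) →
      ∀ n ≤ L, ‖y n - p n‖ ≤ η := by
  have hu : UniformContinuousOn T (closedBall 0 1) :=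
    (isCompact_closedBall (0 : ℂ) 1).uniformContinuousOn_of_continuous hT
  rw [Metric.uniformContinuousOn_iff_le] at hu
  induction L with
  | zero =>
    intro η hη
    refine ⟨η, hη, fun y _ h0 _ n hn => ?_⟩
    rw [Nat.le_zero.1 hn]
    exact h0
  | succ L ih =>
    intro η hη
    obtain ⟨d, hd, hd'⟩ := hu (η / 2) (half_pos hη)
    obtain ⟨δ', hδ', hδ''⟩ := ih (min η d) (lt_min hη hd)
    refine ⟨min δ' (η / 2), lt_min hδ' (half_pos hη), fun y hy h0 hstep n hn => ?_⟩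
    have key := hδ'' y hy (h0.trans (min_le_left _ _)) (fun m hm hm' =>
      (hstep m (by omega) (hm'.trans (min_le_left _ _))).trans (min_le_left _ _))
    rcases Nat.lt_or_ge n (L + 1) with h | h
    · exact (key n (by omega)).trans (min_le_left _ _)
    · have hnL : n = L + 1 := by omega
      rw [hnL]
      have h1 := key L le_rfl
      have h2 := hstep L (by omega) (h1.trans (min_le_left _ _))
      have h3 : ‖T (y L) - T (p L)‖ ≤ η / 2 := by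
        rw [← dist_eq_norm]
        apply hd' _ (hy L) _ (hp L)
        rw [dist_eq_norm]
        exact h1.trans (min_le_right _ _)
      have h4 : y (L + 1) - p (L + 1) = (y (L + 1) - T (y L)) + (T (y L) - T (p L)) := by
        rw [hpT L]; ring
      rw [h4]
      refine (norm_add_le _ _).trans ?_
      have := min_le_right δ' (η / 2)
      linarith

/-- Preimages of `2π/3` close to the repelling fixed point `0`. -/
lemma preorbit {X : ℝ → ℝ} (hX : Continuous X) (h0 : X 0 = 0) (h8 : ∀ y, 0 ≤ y → 8 * y ≤ X y)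
    (J : ℕ) : ∃ x : ℝ, 0 ≤ x ∧ X^[J] x = 2 * Real.pi / 3 ∧
      ∀ i ≤ J, 0 ≤ X^[i] x ∧ (8 : ℝ) ^ (J - i) * X^[i] x ≤ 2 * Real.pi / 3 := by
  have hπ := Real.pi_pos
  have hgrow : ∀ m : ℕ, ∀ y, 0 ≤ y → (8 : ℝ) ^ m * y ≤ X^[m] y := by
    intro m
    induction m with
    | zero => intro y _; simp
    | succ m ih =>
      intro y hy
      rw [Function.iterate_succ_apply']
      have h1 := ih y hy
      have h2 : 0 ≤ (8 : ℝ) ^ m * y := by positivity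
      have h3 := h8 (X^[m] y) (h2.trans h1)
      calc (8 : ℝ) ^ (m + 1) * y = 8 * ((8 : ℝ) ^ m * y) := by ring
        _ ≤ 8 * X^[m] y := by linarith
        _ ≤ _ := h3
  have hfix : ∀ m : ℕ, X^[m] 0 = 0 := fun m => Function.iterate_fixed h0 m
  have hcont : Continuous (X^[J]) := hX.iterate J
  have hivt := intermediate_value_Icc (a := 0) (b := 2 * Real.pi / 3) (by positivity)
    hcont.continuousOn
  have hmem : 2 * Real.pi / 3 ∈ Icc (X^[J] 0) (X^[J] (2 * Real.pi / 3)) := by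
    rw [hfix]
    refine ⟨by positivity, ?_⟩
    have h1 := hgrow J (2 * Real.pi / 3) (by positivity)
    have h2 : (1 : ℝ) ≤ 8 ^ J := one_le_pow₀ (by norm_num)
    have h3 : 0 < 2 * Real.pi / 3 := by positivity
    nlinarith
  obtain ⟨x, ⟨hx0, -⟩, hxJ⟩ := hivt hmem
  refine ⟨x, hx0, hxJ, fun i hi => ?_⟩
  have hnn : 0 ≤ X^[i] x := by
    have := hgrow i x hx0
    have h2 : 0 ≤ (8 : ℝ) ^ i * x := by positivity
    linarith
  refine ⟨hnn, ?_⟩
  have h1 := hgrow (J - i) (X^[i] x) hnn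
  rw [← Function.iterate_add_apply, Nat.sub_add_cancel hi, hxJ] at h1
  exact h1

end Q74.InnerIter
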