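import Mathlib
import Pool.Agent.Q74.InnerIter.Stage

/-!
# The inductive step
-/

set_option autoImplicit false

open Metric Set Filter Topology Complex
open scoped ComplexConjugate

namespace Q74.InnerIter

/-- a primitive cube root of unity -/
noncomputable def om : ℂ := exp (((2 * Real.pi / 3 : ℝ) : ℂ) * I)

lemma om_cube : om ^ 3 = 1 := by
  rw [om, ← Complex.exp_nat_mul]
  have : ((3 : ℕ) : ℂ) * (((2 * Real.pi / 3 : ℝ) : ℂ) * I) = 2 * Real.pi * I := by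
    push_cast
    ring
  rw [this, Complex.exp_two_pi_mul_I]

lemma norm_om : ‖om‖ = 1 := by rw [om, Complex.norm_exp_ofReal_mul_I]

/-- the self-map of the disc attached to `G` -/
def TT (G : ℂ → ℂ) (z : ℂ) : ℂ := z ^ 8 * G (z ^ 3)

lemma norm_pow_le_one {z : ℂ} (hz : ‖z‖ ≤ 1) (n : ℕ) : ‖z ^ n‖ ≤ 1 := by
  rw [norm_pow]
  exact pow_le_one₀ (norm_nonneg _) hz

lemma ideal {G : ℂ → ℂ} (hG : Good G) (J : ℕ) :
    ∃ x : ℝ, 0 < x ∧ (8 : ℝ) ^ J * x ≤ 2 * Real.pi / 3 ∧ ∃ p : ℕ → ℂ, p 0 = exp (x * I) ∧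
      (∀ n, p (n + 1) = TT G (p n)) ∧ (∀ n, ‖p n‖ = 1) ∧ (∀ n, 0 ≤ ((p n) ^ 3).re) ∧
      (∀ i ≤ J, (8 : ℝ) ^ (J - i) * ‖p i - 1‖ ≤ 2 * Real.pi / 3) ∧
      ∀ i, p (J + i) = if Even i then om else om ^ 2 := by
  have hπ := Real.pi_pos
  obtain ⟨Θ, hΘc, hΘ0, hΘn, hΘ⟩ := hG.lift
  obtain ⟨X, hX⟩ : ∃ X : ℝ → ℝ, X = fun y => 8 * y + Θ (3 * y) := ⟨_, rfl⟩
  have hXc : Continuous X := by rw [hX]; fun_prop
  have hX0 : X 0 = 0 := by rw [hX]; simp [hΘ0]
  have hX8 : ∀ y, 0 ≤ y → 8 * y ≤ X y := by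
    intro y _
    rw [hX]
    have := hΘn (3 * y)
    simp only
    linarith
  obtain ⟨x, hx0, hxJ, hxi⟩ := preorbit hXc hX0 hX8 J
  have hxpos : 0 < x := by
    rcases hx0.eq_or_lt with h | h
    · exfalso
      rw [← h, Function.iterate_fixed hX0] at hxJ
      linarith [Real.pi_pos]
    · exact h
  have hstep : ∀ y : ℝ, 0 ≤ y → y ≤ Real.pi / 12 →
      TT G (exp (y * I)) = exp (X y * I) := by
    intro y h1 h2
    have e1 : (exp (y * I)) ^ 3 = exp (((3 * y : ℝ) : ℂ) * I) := by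
      rw [← Complex.exp_nat_mul]
      congr 1
      push_cast
      ring
    have e2 : (exp (y * I)) ^ 8 = exp (((8 * y : ℝ) : ℂ) * I) := by
      rw [← Complex.exp_nat_mul]
      congr 1
      push_cast
      ring
    rw [TT, e1, e2, hΘ (3 * y) ⟨by linarith, by linarith⟩, ← Complex.exp_add, hX]
    congr 1
    push_cast
    ring
  have hsmall : ∀ i < J, X^[i] x ≤ Real.pi / 12 := by
    intro i hi
    obtain ⟨h1, h2⟩ := hxi i hi.le
    have h3 : (8 : ℝ) ≤ 8 ^ (J - i) := by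
      calc (8 : ℝ) = 8 ^ 1 := by norm_num
        _ ≤ 8 ^ (J - i) := pow_le_pow_right₀ (by norm_num) (by omega)
    nlinarith
  have hiter : ∀ i ≤ J, (TT G)^[i] (exp (x * I)) = exp ((X^[i] x : ℝ) * I) := by
    intro i
    induction i with
    | zero => intro _; simp
    | succ i ih =>
      intro hi
      rw [Function.iterate_succ_apply', ih (by omega), Function.iterate_succ_apply']
      exact hstep _ (hxi i (by omega)).1 (hsmall i (by omega))
  have hom1 : TT G om = om ^ 2 := by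
    rw [TT, om_cube, hG.one, mul_one]
    calc om ^ 8 = (om ^ 3) ^ 2 * om ^ 2 := by ring
      _ = om ^ 2 := by rw [om_cube]; ring
  have hom2 : TT G (om ^ 2) = om := by
    have : (om ^ 2) ^ 3 = 1 := by
      calc (om ^ 2) ^ 3 = (om ^ 3) ^ 2 := by ring
        _ = 1 := by rw [om_cube]; ring
    rw [TT, this, hG.one, mul_one]
    calc (om ^ 2) ^ 8 = (om ^ 3) ^ 5 * om := by ring
      _ = om := by rw [om_cube]; ring
  have hcyc : ∀ i, (TT G)^[J + i] (exp (x * I)) = if Even i then om else om ^ 2 := by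
    intro i
    induction i with
    | zero =>
      rw [Nat.add_zero, hiter J le_rfl, hxJ, if_pos Even.zero]
      rfl
    | succ i ih =>
      rw [← Nat.add_assoc, Function.iterate_succ_apply', ih]
      by_cases h : Even i
      · rw [if_pos h, if_neg (by rw [Nat.even_add_one]; simpa using h), hom1]
      · rw [if_neg h, if_pos (by rw [Nat.even_add_one]; exact h), hom2]
  refine ⟨x, hxpos, ?_, fun n => (TT G)^[n] (exp (x * I)), rfl, ?_, ?_, ?_, ?_, hcyc⟩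
  · have := (hxi 0 (Nat.zero_le _)).2
    simpa using this
  · intro n
    exact Function.iterate_succ_apply' _ _ _
  · intro n
    show ‖(TT G)^[n] (exp (x * I))‖ = 1
    rcases Nat.lt_or_ge n J with h | h
    · rw [hiter n h.le, Complex.norm_exp_ofReal_mul_I]
    · obtain ⟨i, rfl⟩ := Nat.exists_eq_add_of_le h
      rw [hcyc]
      split_ifs
      · exact norm_om
      · rw [norm_pow, norm_om, one_pow]
  · intro n
    show 0 ≤ (((TT G)^[n] (exp (x * I))) ^ 3).re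
    rcases Nat.lt_or_ge n J with h | h
    · rw [hiter n h.le, ← Complex.exp_nat_mul]
      have e1 : ((3 : ℕ) : ℂ) * (((X^[n] x : ℝ) : ℂ) * I) = ((3 * X^[n] x : ℝ) : ℂ) * I := by
        push_cast
        ring
      rw [e1, Complex.exp_ofReal_mul_I_re]
      apply Real.cos_nonneg_of_mem_Icc
      have h1 := (hxi n h.le).1
      have h2 := hsmall n h
      constructor <;> linarith
    · obtain ⟨i, rfl⟩ := Nat.exists_eq_add_of_le h
      rw [hcyc]
      split_ifs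
      · rw [om_cube]; norm_num
      · have : (om ^ 2) ^ 3 = 1 := by
          calc (om ^ 2) ^ 3 = (om ^ 3) ^ 2 := by ring
            _ = 1 := by rw [om_cube]; ring
        rw [this]; norm_num
  · intro i hi
    show (8 : ℝ) ^ (J - i) * ‖(TT G)^[i] (exp (x * I)) - 1‖ ≤ _
    rw [hiter i hi]
    obtain ⟨h1, h2⟩ := hxi i hi
    have h3 : ‖exp ((X^[i] x : ℝ) * I) - 1‖ ≤ X^[i] x := by
      rw [mul_comm]
      refine (Real.norm_exp_I_mul_ofReal_sub_one_le).trans ?_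
      rw [Real.norm_eq_abs, abs_of_nonneg h1]
    have h4 : (0 : ℝ) ≤ 8 ^ (J - i) := by positivity
    exact (mul_le_mul_of_nonneg_left h3 h4).trans h2

/-- the state of the construction -/
structure St where
  G : ℂ → ℂ
  d : ℝ
  τ : ℝ
  r : ℝ
  E : ℕ
  good : Good G
  d0 : 0 < d
  d1 : d ≤ 1 / 2
  τ0 : 0 < τ
  r0 : 0 ≤ r
  r1 : r < 1

/-- the relation between consecutive states -/
structure Step (k : ℕ) (s s' : St) (N : ℕ) : Prop where
  hN : s.E + 1 ≤ N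
  hE : s'.E = N + 2 * (k + 1)
  hd : s'.d ≤ s.d / 2
  hτ : s'.τ ≤ s.τ / 2
  hq : ∃ q : ℂ → ℂ, (s'.G = fun Z => s.G Z * q Z) ∧
    (∀ Z, ‖Z‖ ≤ 1 → s.d ≤ ‖1 + Z‖ → ‖q Z - 1‖ ≤ s.τ) ∧
    (∀ t : ℝ, 0 ≤ t → t ≤ 1 → ‖q (-(t : ℂ)) - 1‖ ≤ s.τ)
  hr : s.r ^ N ≤ (1 - s.r) / (k + 1)
  hr' : 1 - 1 / ((k : ℝ) + 1) ≤ s'.r
  orbit : ∀ h : ℂ → ℂ, (∀ z, ‖z‖ ≤ 1 → ‖h z‖ ≤ 1) →
    (∀ z, ‖z‖ ≤ 1 → s'.d ≤ ‖1 + z ^ 3‖ → ‖h z - TT s'.G z‖ ≤ 2 * s'.τ) →
    (∀ n, 1 ≤ n → n ≤ s.E → ‖h^[n] (-(s'.r : ℂ)) - 1‖ ≤ 1 / (((k : ℝ) + 1) * (s.E + 1))) ∧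
    ∀ i < 2 * (k + 1), ‖h^[N + i] (-(s'.r : ℂ)) - (if Even i then om else om ^ 2)‖ ≤
      1 / ((k : ℝ) + 1)

lemma cube_close {y p : ℂ} (hy : ‖y‖ ≤ 1) (hp : ‖p‖ ≤ 1) (hpr : 0 ≤ (p ^ 3).re)
    (h : ‖y - p‖ ≤ 1 / 6) : 1 / 2 ≤ ‖1 + y ^ 3‖ := by
  have h1 : ‖y ^ 3 - p ^ 3‖ ≤ 1 / 2 := by
    have e : y ^ 3 - p ^ 3 = (y - p) * (y ^ 2 + y * p + p ^ 2) := by ring
    rw [e, norm_mul]
    have h2 : ‖y ^ 2 + y * p + p ^ 2‖ ≤ 3 := by
      have a1 := norm_pow_le_one hy 2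
      have a2 := norm_pow_le_one hp 2
      have a3 : ‖y * p‖ ≤ 1 := by
        rw [norm_mul]
        nlinarith [norm_nonneg y, norm_nonneg p]
      calc ‖y ^ 2 + y * p + p ^ 2‖ ≤ ‖y ^ 2‖ + ‖y * p‖ + ‖p ^ 2‖ := norm_add₃_le
        _ ≤ 3 := by linarith
    nlinarith [norm_nonneg (y - p), norm_nonneg (y ^ 2 + y * p + p ^ 2)]
  have h3 : 1 ≤ ‖1 + p ^ 3‖ := by
    refine le_trans ?_ (re_le_norm _)
    rw [add_re, one_re]
    linarith
  have h4 : ‖1 + p ^ 3‖ ≤ ‖1 + y ^ 3‖ + ‖y ^ 3 - p ^ 3‖ := by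
    have e : 1 + p ^ 3 = (1 + y ^ 3) - (y ^ 3 - p ^ 3) := by ring
    rw [e]
    exact norm_sub_le _ _
  linarith

theorem exists_step (k : ℕ) (s : St) : ∃ (s' : St) (N : ℕ), Step k s s' N := by
  have hπ := Real.pi_pos
  have hk : (0 : ℝ) < (k : ℝ) + 1 := by positivity
  have hE0 : (0 : ℝ) < (s.E : ℝ) + 1 := by positivity
  -- the number of steps near the fixed point
  obtain ⟨J, hJE, hJ2, hJ3, hJ4⟩ : ∃ J : ℕ, s.E ≤ J ∧
      2 * Real.pi / 3 * (2 * (((k : ℝ) + 1) * (s.E + 1))) ≤ 8 ^ (J - s.E) ∧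
      2 * Real.pi / 3 ≤ 8 ^ J * min 1 (s.τ / 4) ∧ s.r ^ (J + 1) ≤ (1 - s.r) / (k + 1) := by
    have h8 : Tendsto (fun J : ℕ => (8 : ℝ) ^ J) atTop atTop :=
      tendsto_pow_atTop_atTop_of_one_lt (by norm_num)
    have e1 : ∀ᶠ J : ℕ in atTop, s.E ≤ J := eventually_ge_atTop _
    have e2 : ∀ᶠ J : ℕ in atTop,
        2 * Real.pi / 3 * (2 * (((k : ℝ) + 1) * (s.E + 1))) ≤ 8 ^ (J - s.E) :=
      (h8.comp (tendsto_sub_atTop_nat s.E)).eventually (eventually_ge_atTop _)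
    have hm : 0 < min 1 (s.τ / 4) := lt_min one_pos (by linarith [s.τ0])
    have e3 : ∀ᶠ J : ℕ in atTop, 2 * Real.pi / 3 ≤ 8 ^ J * min 1 (s.τ / 4) :=
      (h8.atTop_mul_const hm).eventually (eventually_ge_atTop _)
    have e4 : ∀ᶠ J : ℕ in atTop, s.r ^ (J + 1) < (1 - s.r) / (k + 1) := by
      have h1 : Tendsto (fun J : ℕ => s.r ^ (J + 1)) atTop (𝓝 0) :=
        (tendsto_pow_atTop_nhds_zero_of_lt_one s.r0 s.r1).comp (tendsto_add_atTop_nat 1)
      exact h1.eventually (gt_mem_nhds (div_pos (by linarith [s.r1]) hk))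
    obtain ⟨J, a1, a2, a3, a4⟩ := (e1.and (e2.and (e3.and e4))).exists
    exact ⟨J, a1, a2, a3, a4.le⟩
  obtain ⟨x, hx0, hxJ, p, hp0, hpT, hpn, hpr, hp1, hpc⟩ := ideal s.good J
  have h8J : (0 : ℝ) < 8 ^ J := by positivity
  have hxm : x ≤ min 1 (s.τ / 4) := le_of_mul_le_mul_left (hxJ.trans hJ3) h8J
  have hx1 : x ≤ 1 := hxm.trans (min_le_left _ _)
  have hxτ : 4 * x ≤ s.τ := by linarith [hxm.trans (min_le_right _ _)]
  -- the tolerance
  obtain ⟨η, hη0, hη1, hη2⟩ : ∃ η : ℝ, 0 < η ∧ η ≤ 1 / 6 ∧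
      η ≤ 1 / (2 * (((k : ℝ) + 1) * (s.E + 1))) :=
    ⟨min (1 / 6) (1 / (2 * (((k : ℝ) + 1) * (s.E + 1)))), lt_min (by norm_num) (by positivity),
      min_le_left _ _, min_le_right _ _⟩
  have hTc : ContinuousOn (TT s.G) (closedBall 0 1) := by
    unfold TT
    apply ContinuousOn.mul (by fun_prop)
    apply s.good.cont.comp (by fun_prop)
    intro z hz
    rw [mem_closedBall_zero_iff] at hz ⊢
    exact norm_pow_le_one hz 3
  have hpb : ∀ n, p n ∈ closedBall (0 : ℂ) 1 := fun n => by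
    rw [mem_closedBall_zero_iff, hpn]
  obtain ⟨δ, hδ0, hδ⟩ := shadow hTc p hpb hpT (J + 2 * (k + 1)) η hη0
  -- the size of the first factor
  have hmin : 0 < min s.τ (δ / 4) := lt_min s.τ0 (by linarith)
  obtain ⟨ρ, hρdef⟩ : ∃ ρ : ℝ, ρ = s.d * min 1 (min s.τ (δ / 4)) / 16 := ⟨_, rfl⟩
  have hd0 := s.d0
  have hd1 := s.d1
  have hm1 : 0 < min 1 (min s.τ (δ / 4)) := lt_min one_pos hmin
  have hρ0 : 0 < ρ := by rw [hρdef]; positivity
  have hρd : ρ ≤ s.d / 4 := by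
    rw [hρdef]
    have : min 1 (min s.τ (δ / 4)) ≤ 1 := min_le_left _ _
    nlinarith
  have hρ1 : ρ < 1 := by linarith
  have hρ2 : 16 * ρ / s.d ≤ min s.τ (δ / 4) := by
    rw [hρdef]
    have : 16 * (s.d * min 1 (min s.τ (δ / 4)) / 16) / s.d = min 1 (min s.τ (δ / 4)) := by
      field_simp
    rw [this]
    exact min_le_right _ _
  -- the test radius
  obtain ⟨r, hr0, hr1, hrk, hra, hrb⟩ : ∃ r : ℝ, 0 ≤ r ∧ r < 1 ∧ 1 - 1 / ((k : ℝ) + 1) ≤ r ∧
      ‖(r : ℂ) ^ 8 * s.G (-((r ^ 3 : ℝ) : ℂ)) - 1‖ ≤ δ / 8 ∧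
      ‖b (par x ρ) (-((r ^ 3 : ℝ) : ℂ)) - exp (x * I)‖ ≤ δ / 8 := by
    have hpath : Tendsto (fun r : ℝ => -((r ^ 3 : ℝ) : ℂ)) (𝓝[<] 1) (𝓝[closedBall 0 1] (-1)) := by
      apply tendsto_nhdsWithin_of_tendsto_nhds_of_eventually_within
      · have : Continuous fun r : ℝ => -((r ^ 3 : ℝ) : ℂ) := by fun_prop
        have h2 := this.tendsto 1
        simp only [one_pow, ofReal_one] at h2
        exact h2.mono_left nhdsWithin_le_nhds
      · have h1 : ∀ᶠ r in 𝓝[<] (1 : ℝ), 0 < r :=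
          (eventually_gt_nhds one_pos).filter_mono nhdsWithin_le_nhds
        filter_upwards [h1, self_mem_nhdsWithin] with r h2 h3
        have h3' : r < 1 := h3
        rw [mem_closedBall_zero_iff, norm_neg, Complex.norm_real, Real.norm_eq_abs,
          abs_of_pos (by positivity)]
        exact pow_le_one₀ h2.le h3'.le
    have hm : (-1 : ℂ) ∈ closedBall (0 : ℂ) 1 := by simp
    have t1 : Tendsto (fun r : ℝ => s.G (-((r ^ 3 : ℝ) : ℂ))) (𝓝[<] 1) (𝓝 1) := by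
      have := (s.good.cont (-1) hm).tendsto.comp hpath
      rwa [s.good.neg] at this
    have t2 : Tendsto (fun r : ℝ => b (par x ρ) (-((r ^ 3 : ℝ) : ℂ))) (𝓝[<] 1)
        (𝓝 (exp (x * I))) := by
      have := (b_continuousOn (par_re_pos hx0 hx1 hρ0) (-1) hm).tendsto.comp hpath
      rwa [b_par_neg_one hx0 hx1 hρ0] at this
    have t3 : Tendsto (fun r : ℝ => (r : ℂ) ^ 8) (𝓝[<] 1) (𝓝 1) := by
      have : Continuous fun r : ℝ => (r : ℂ) ^ 8 := by fun_prop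
      have h2 := this.tendsto 1
      simp only [one_pow, ofReal_one] at h2
      exact h2.mono_left nhdsWithin_le_nhds
    have t4 := t3.mul t1
    rw [one_mul] at t4
    have f1 : ∀ᶠ r : ℝ in 𝓝[<] (1 : ℝ), ‖(r : ℂ) ^ 8 * s.G (-((r ^ 3 : ℝ) : ℂ)) - 1‖ < δ / 8 := by
      have := (t4.sub_const 1).norm
      rw [sub_self, norm_zero] at this
      exact this.eventually (gt_mem_nhds (by linarith))
    have f2 : ∀ᶠ r : ℝ in 𝓝[<] (1 : ℝ),
        ‖b (par x ρ) (-((r ^ 3 : ℝ) : ℂ)) - exp (x * I)‖ < δ / 8 := by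
      have := (t2.sub_const (exp (x * I))).norm
      rw [sub_self, norm_zero] at this
      exact this.eventually (gt_mem_nhds (by linarith))
    have f3 : ∀ᶠ r in 𝓝[<] (1 : ℝ), 1 - 1 / ((k : ℝ) + 1) < r :=
      (eventually_gt_nhds (by
        have : 0 < 1 / ((k : ℝ) + 1) := by positivity
        linarith)).filter_mono nhdsWithin_le_nhds
    have f4 : ∀ᶠ r in 𝓝[<] (1 : ℝ), 0 < r :=
      (eventually_gt_nhds one_pos).filter_mono nhdsWithin_le_nhds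
    obtain ⟨r, a1, a2, a3, a4, a5⟩ := (f1.and (f2.and (f3.and (f4.and self_mem_nhdsWithin)))).exists
    exact ⟨r, a4.le, a5, a3.le, a1.le, a2.le⟩
  have hr3 : r ^ 3 < 1 := pow_lt_one₀ hr0 hr1 (by norm_num)
  have hr30 : 0 ≤ r ^ 3 := by positivity
  -- the size of the second factor
  obtain ⟨D, hD⟩ : ∃ D : ℝ, D = 1 - r ^ 3 := ⟨_, rfl⟩
  have hD0 : 0 < D := by linarith
  obtain ⟨μ, hμ0, hμρ, hμD, hμδ⟩ : ∃ μ : ℝ, 0 < μ ∧ μ ≤ ρ ∧ μ ≤ D / 4 ∧ 8 * μ / D ≤ δ / 8 := by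
    refine ⟨min ρ (min (D / 4) (D * (δ / 8) / 8)), by positivity, min_le_left _ _,
      (min_le_right _ _).trans (min_le_left _ _), ?_⟩
    rw [div_le_iff₀ hD0]
    have : min ρ (min (D / 4) (D * (δ / 8) / 8)) ≤ D * (δ / 8) / 8 :=
      (min_le_right _ _).trans (min_le_right _ _)
    linarith
  have hpp : PairPar x ρ μ := ⟨hx0, hx1, hρ0, hρ1, hμ0, hμρ⟩
  have hZr : ‖-((r ^ 3 : ℝ) : ℂ)‖ ≤ 1 := by
    rw [norm_neg, Complex.norm_real, Real.norm_eq_abs, abs_of_nonneg hr30]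
    exact hr3.le
  have h1Zr : ‖1 + -((r ^ 3 : ℝ) : ℂ)‖ = D := by
    have : 1 + -((r ^ 3 : ℝ) : ℂ) = ((D : ℝ) : ℂ) := by
      rw [hD]
      push_cast
      ring
    rw [this, Complex.norm_real, Real.norm_eq_abs, abs_of_pos hD0]
  have hsecond : ‖b (conj (par x μ)) (-((r ^ 3 : ℝ) : ℂ)) - 1‖ ≤ δ / 8 := by
    have hnorm : ‖conj (par x μ)‖ = μ := by
      rw [RCLike.norm_conj]
      exact norm_par x hμ0.le
    have := norm_b_sub_one_le hpp.re2 hZr hD0 (by rw [h1Zr]) (by rw [hnorm]; exact hμD)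
    rw [hnorm] at this
    exact this.trans hμδ
  -- the new state
  refine ⟨⟨fun Z => s.G Z * pair x ρ μ Z, min (s.d / 2) D, min (s.τ / 2) (δ / 8), r,
    (J + 1) + 2 * (k + 1), s.good.mul_pair hpp, lt_min (by linarith) hD0,
    (min_le_left _ _).trans (by linarith), lt_min (by linarith [s.τ0]) (by linarith), hr0, hr1⟩,
    J + 1, ?_⟩
  refine ⟨by omega, rfl, min_le_left _ _, min_le_left _ _, ⟨pair x ρ μ, rfl, ?_, ?_⟩, hJ4, hrk, ?_⟩
  · intro Z hZ hZd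
    exact (hpp.away hZ hd0 hZd hρd).trans (hρ2.trans (min_le_left _ _))
  · intro t ht0 ht1
    exact (hpp.radial ht0 ht1).trans hxτ
  · intro h hh hclose
    simp only at hclose ⊢
    obtain ⟨τ', hτ'⟩ : ∃ τ' : ℝ, τ' = min (s.τ / 2) (δ / 8) := ⟨_, rfl⟩
    have hτδ : τ' ≤ δ / 8 := by rw [hτ']; exact min_le_right _ _
    rw [← hτ'] at hclose
    have hrn : ‖-(r : ℂ)‖ ≤ 1 := by
      rw [norm_neg, Complex.norm_real, Real.norm_eq_abs, abs_of_nonneg hr0]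
      exact hr1.le
    -- the orbit stays in the disc
    have hball : ∀ n, ‖h^[n] (-(r : ℂ))‖ ≤ 1 := by
      intro n
      induction n with
      | zero => exact hrn
      | succ n ih =>
        rw [Function.iterate_succ_apply']
        exact hh _ ih
    have key := hδ (fun n => h^[n + 1] (-(r : ℂ)))
      (fun n => by rw [mem_closedBall_zero_iff]; exact hball _) ?_ ?_
    · constructor
      · intro n hn1 hnE
        obtain ⟨m, rfl⟩ := Nat.exists_eq_add_of_le' hn1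
        have h1 := key m (by omega)
        have h2 := hp1 m (by omega)
        have h3 : ‖p m - 1‖ ≤ 1 / (2 * (((k : ℝ) + 1) * (s.E + 1))) := by
          have h4 : (8 : ℝ) ^ (J - s.E) ≤ 8 ^ (J - m) :=
            pow_le_pow_right₀ (by norm_num) (by omega)
          have h5 : (8 : ℝ) ^ (J - s.E) * ‖p m - 1‖ ≤ 2 * Real.pi / 3 :=
            (mul_le_mul_of_nonneg_right h4 (norm_nonneg _)).trans h2
          have h6 : 0 < 2 * (((k : ℝ) + 1) * (s.E + 1)) := by positivity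
          rw [le_div_iff₀ h6]
          have h7 := mul_le_mul_of_nonneg_right hJ2 (norm_nonneg (p m - 1))
          have h8 : 0 < 2 * Real.pi / 3 := by positivity
          have h9 : 2 * Real.pi / 3 * (‖p m - 1‖ * (2 * (((k : ℝ) + 1) * (s.E + 1)))) ≤
              2 * Real.pi / 3 * 1 := by nlinarith
          exact le_of_mul_le_mul_left h9 h8
        have h4 : h^[m + 1] (-(r : ℂ)) - 1 = (h^[m + 1] (-(r : ℂ)) - p m) + (p m - 1) := by ring
        rw [h4]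
        refine (norm_add_le _ _).trans ?_
        calc _ ≤ 1 / (2 * (((k : ℝ) + 1) * (s.E + 1))) + 1 / (2 * (((k : ℝ) + 1) * (s.E + 1))) :=
              add_le_add (h1.trans hη2) h3
          _ = _ := by field_simp; ring
      · intro i hi
        have h1 := key (J + i) (by omega)
        rw [hpc] at h1
        have h2 : J + 1 + i = J + i + 1 := by ring
        rw [h2]
        refine h1.trans (hη2.trans ?_)
        apply one_div_le_one_div_of_le hk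
        nlinarith
    · -- the first point
      show ‖h^[1] (-(r : ℂ)) - p 0‖ ≤ δ
      rw [Function.iterate_one, hp0]
      have e1 : (-(r : ℂ)) ^ 3 = -((r ^ 3 : ℝ) : ℂ) := by
        push_cast
        ring
      have e2 : (-(r : ℂ)) ^ 8 = (r : ℂ) ^ 8 := by ring
      have h1 := hclose (-(r : ℂ)) hrn (by
        rw [e1, h1Zr]
        exact min_le_right _ _)
      rw [TT, e1, e2] at h1
      obtain ⟨A, hA⟩ : ∃ A : ℂ, A = (r : ℂ) ^ 8 * s.G (-((r ^ 3 : ℝ) : ℂ)) := ⟨_, rfl⟩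
      obtain ⟨B, hB⟩ : ∃ B : ℂ, B = b (par x ρ) (-((r ^ 3 : ℝ) : ℂ)) := ⟨_, rfl⟩
      obtain ⟨C, hC⟩ : ∃ C : ℂ, C = b (conj (par x μ)) (-((r ^ 3 : ℝ) : ℂ)) := ⟨_, rfl⟩
      have hBn : ‖B‖ ≤ 1 := by rw [hB]; exact norm_b_le hpp.re1 hZr
      have hCn : ‖C‖ ≤ 1 := by rw [hC]; exact norm_b_le hpp.re2 hZr
      rw [← hA] at hra
      rw [← hB] at hrb
      rw [← hC] at hsecond
      have e3 : (r : ℂ) ^ 8 * (s.G (-((r ^ 3 : ℝ) : ℂ)) * pair x ρ μ (-((r ^ 3 : ℝ) : ℂ))) =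
          A * (B * C) := by
        rw [hA, hB, hC, pair]
        ring
      rw [e3] at h1
      have e4 : h (-(r : ℂ)) - exp (x * I) = (h (-(r : ℂ)) - A * (B * C)) + (A - 1) * (B * C) +
          B * (C - 1) + (B - exp (x * I)) := by ring
      rw [e4]
      have n1 : ‖(A - 1) * (B * C)‖ ≤ δ / 8 := by
        rw [norm_mul, norm_mul]
        have a1 : ‖B‖ * ‖C‖ ≤ 1 := by nlinarith [norm_nonneg B, norm_nonneg C]
        have a2 := norm_nonneg (A - 1)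
        have a3 : 0 ≤ ‖B‖ * ‖C‖ := by positivity
        nlinarith
      have n2 : ‖B * (C - 1)‖ ≤ δ / 8 := by
        rw [norm_mul]
        nlinarith [norm_nonneg B, norm_nonneg (C - 1)]
      calc _ ≤ ‖h (-(r : ℂ)) - A * (B * C)‖ + ‖(A - 1) * (B * C)‖ + ‖B * (C - 1)‖ +
            ‖B - exp (x * I)‖ := norm_add₄_le
        _ ≤ 2 * τ' + δ / 8 + δ / 8 + δ / 8 := by gcongr
        _ ≤ δ := by linarith
    · -- the steps
      intro n _ hn
      show ‖h^[n + 1 + 1] (-(r : ℂ)) - TT s.G (h^[n + 1] (-(r : ℂ)))‖ ≤ δ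
      have hn' : ‖h^[n + 1] (-(r : ℂ)) - p n‖ ≤ η := hn
      rw [Function.iterate_succ_apply']
      obtain ⟨y, hy⟩ : ∃ y : ℂ, y = h^[n + 1] (-(r : ℂ)) := ⟨_, rfl⟩
      have hyn : ‖y‖ ≤ 1 := by rw [hy]; exact hball _
      rw [← hy] at hn' ⊢
      have h1 := cube_close hyn (hpn n).le (hpr n) (hn'.trans hη1)
      have h2 : s.d ≤ ‖1 + y ^ 3‖ := hd1.trans h1
      have h3 := hclose y hyn ((min_le_left _ _).trans (by linarith))
      have h4 := hpp.away (norm_pow_le_one hyn 3) hd0 h2 hρd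
      have h5 : ‖TT (fun Z => s.G Z * pair x ρ μ Z) y - TT s.G y‖ ≤ δ / 4 := by
        have e : TT (fun Z => s.G Z * pair x ρ μ Z) y - TT s.G y =
            (y ^ 8 * s.G (y ^ 3)) * (pair x ρ μ (y ^ 3) - 1) := by
          unfold TT
          ring
        rw [e, norm_mul, norm_mul]
        have a1 := norm_pow_le_one hyn 8
        have a2 := s.good.le (y ^ 3) (norm_pow_le_one hyn 3)
        have a3 : ‖y ^ 8‖ * ‖s.G (y ^ 3)‖ ≤ 1 := by
          nlinarith [norm_nonneg (y ^ 8), norm_nonneg (s.G (y ^ 3))]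
        have a4 := h4.trans (hρ2.trans (min_le_right _ _))
        have a5 := norm_nonneg (pair x ρ μ (y ^ 3) - 1)
        have a6 : 0 ≤ ‖y ^ 8‖ * ‖s.G (y ^ 3)‖ := by positivity
        nlinarith
      have e : h y - TT s.G y = (h y - TT (fun Z => s.G Z * pair x ρ μ Z) y) +
          (TT (fun Z => s.G Z * pair x ρ μ Z) y - TT s.G y) := by ring
      rw [e]
      refine (norm_add_le _ _).trans ?_
      linarith

end Q74.InnerIter
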