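import Mathlib
import Pool.Agent.Q74.InnerIter.Step

/-!
# The limit function
-/

set_option autoImplicit false

open Metric Set Filter Topology Complex
open scoped ComplexConjugate

namespace Q74.InnerIter

/-- the initial state -/
noncomputable def st0 : St := ⟨fun _ => 1, 1 / 2, 1 / 8, 0, 0, good_one, by norm_num, le_rfl, by norm_num, le_rfl,
  one_pos⟩

/-- the states -/
noncomputable def st : ℕ → St
  | 0 => st0
  | k + 1 => (exists_step k (st k)).choose

/-- the beginnings of the blocks -/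
noncomputable def nn (k : ℕ) : ℕ := (exists_step k (st k)).choose_spec.choose

lemma step (k : ℕ) : Step k (st k) (st (k + 1)) (nn k) :=
  (exists_step k (st k)).choose_spec.choose_spec

lemma d_succ (k : ℕ) : (st (k + 1)).d ≤ (st k).d / 2 := (step k).hd
lemma τ_succ (k : ℕ) : (st (k + 1)).τ ≤ (st k).τ / 2 := (step k).hτ

lemma d_anti : Antitone fun k => (st k).d :=
  antitone_nat_of_succ_le fun k => by
    have := d_succ k
    have := (st k).d0
    linarith

lemma τ_le (k : ℕ) : (st k).τ ≤ (1 / 2) ^ k := by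
  induction k with
  | zero => show (1 / 8 : ℝ) ≤ _; norm_num
  | succ k ih =>
    have := τ_succ k
    rw [pow_succ]
    linarith

lemma d_le (k : ℕ) : (st k).d ≤ (1 / 2) ^ k := by
  induction k with
  | zero => show (1 / 2 : ℝ) ≤ _; norm_num
  | succ k ih =>
    have := d_succ k
    rw [pow_succ]
    linarith

lemma τ_tendsto : Tendsto (fun k => (st k).τ) atTop (𝓝 0) :=
  squeeze_zero (fun k => (st k).τ0.le) τ_le
    (tendsto_pow_atTop_nhds_zero_of_lt_one (by norm_num) (by norm_num))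

lemma d_tendsto : Tendsto (fun k => (st k).d) atTop (𝓝 0) :=
  squeeze_zero (fun k => (st k).d0.le) d_le
    (tendsto_pow_atTop_nhds_zero_of_lt_one (by norm_num) (by norm_num))

/-- the sets of uniform convergence -/
def SS (i : ℕ) : Set ℂ :=
  {Z | ‖Z‖ ≤ 1 ∧ ((st i).d ≤ ‖1 + Z‖ ∨ ∃ t : ℝ, 0 ≤ t ∧ t ≤ 1 ∧ Z = -(t : ℂ))}

lemma mem_SS_of {Z : ℂ} (hZ : ‖Z‖ ≤ 1) : ∃ i, Z ∈ SS i := by
  by_cases h : Z = -1
  · exact ⟨0, hZ, Or.inr ⟨1, zero_le_one, le_rfl, by simp [h]⟩⟩
  · have h1 : 0 < ‖1 + Z‖ := by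
      rw [norm_pos_iff]
      intro h2
      apply h
      linear_combination h2
    obtain ⟨i, hi⟩ := (d_tendsto.eventually (gt_mem_nhds h1)).exists
    exact ⟨i, hZ, Or.inl hi.le⟩

lemma G_succ_close {i k : ℕ} (hik : i ≤ k) {Z : ℂ} (hZ : Z ∈ SS i) :
    ‖(st (k + 1)).G Z - (st k).G Z‖ ≤ (st k).τ := by
  obtain ⟨q, hq1, hq2, hq3⟩ := (step k).hq
  rw [hq1]
  show ‖(st k).G Z * q Z - (st k).G Z‖ ≤ _
  have e : (st k).G Z * q Z - (st k).G Z = (st k).G Z * (q Z - 1) := by ring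
  rw [e, norm_mul]
  have h1 := (st k).good.le Z hZ.1
  have h2 : ‖q Z - 1‖ ≤ (st k).τ := by
    rcases hZ.2 with h | ⟨t, ht0, ht1, rfl⟩
    · exact hq2 Z hZ.1 ((d_anti hik).trans h)
    · exact hq3 t ht0 ht1
  nlinarith [norm_nonneg ((st k).G Z), norm_nonneg (q Z - 1)]

lemma G_close {i k : ℕ} (hik : i ≤ k) {Z : ℂ} (hZ : Z ∈ SS i) (m : ℕ) :
    ‖(st (k + m)).G Z - (st k).G Z‖ ≤ 2 * (st k).τ - 2 * (st (k + m)).τ := by
  induction m with
  | zero => simp
  | succ m ih =>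
    have h1 := G_succ_close (k := k + m) (by omega) hZ
    have h2 := τ_succ (k + m)
    have e : (st (k + (m + 1))).G Z - (st k).G Z =
      ((st (k + m + 1)).G Z - (st (k + m)).G Z) + ((st (k + m)).G Z - (st k).G Z) := by
        rw [← Nat.add_assoc]; ring
    rw [e]
    refine (norm_add_le _ _).trans ?_
    rw [← Nat.add_assoc]
    linarith

lemma G_cauchy {i : ℕ} {Z : ℂ} (hZ : Z ∈ SS i) : CauchySeq fun k => (st k).G Z := by
  rw [Metric.cauchySeq_iff']
  intro ε hε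
  have h1 : ∀ᶠ k in atTop, (st k).τ < ε / 2 := τ_tendsto.eventually (gt_mem_nhds (half_pos hε))
  obtain ⟨k, hk1, hk2⟩ := (h1.and (eventually_ge_atTop i)).exists
  refine ⟨k, fun n hn => ?_⟩
  obtain ⟨m, rfl⟩ := Nat.exists_eq_add_of_le hn
  rw [dist_eq_norm]
  have := G_close hk2 hZ m
  have := (st (k + m)).τ0
  linarith

/-- the limit of the products -/
noncomputable def GG (Z : ℂ) : ℂ := limUnder atTop fun k => (st k).G Z

lemma GG_tendsto {Z : ℂ} (hZ : ‖Z‖ ≤ 1) : Tendsto (fun k => (st k).G Z) atTop (𝓝 (GG Z)) := by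
  obtain ⟨i, hi⟩ := mem_SS_of hZ
  exact (G_cauchy hi).tendsto_limUnder

lemma GG_close {i k : ℕ} (hik : i ≤ k) {Z : ℂ} (hZ : Z ∈ SS i) :
    ‖GG Z - (st k).G Z‖ ≤ 2 * (st k).τ := by
  have h1 : Tendsto (fun m => ‖(st (k + m)).G Z - (st k).G Z‖) atTop (𝓝 ‖GG Z - (st k).G Z‖) := by
    apply Tendsto.norm
    apply Tendsto.sub_const
    have h2 := (GG_tendsto hZ.1).comp (tendsto_add_atTop_nat k)
    refine h2.congr fun m => ?_
    simp only [Function.comp, Nat.add_comm]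
  refine le_of_tendsto h1 (Eventually.of_forall fun m => ?_)
  have := G_close hik hZ m
  have := (st (k + m)).τ0
  linarith

lemma GG_le {Z : ℂ} (hZ : ‖Z‖ ≤ 1) : ‖GG Z‖ ≤ 1 :=
  le_of_tendsto (GG_tendsto hZ).norm (Eventually.of_forall fun k => (st k).good.le Z hZ)

lemma GG_eq {Z : ℂ} (hZ : ‖Z‖ = 1) : ‖GG Z‖ = 1 :=
  tendsto_nhds_unique (GG_tendsto hZ.le).norm
    ((tendsto_const_nhds (x := (1 : ℝ))).congr fun k => ((st k).good.eq Z hZ).symm)

lemma GG_one : GG 1 = 1 :=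
  tendsto_nhds_unique (GG_tendsto (by simp))
    ((tendsto_const_nhds (x := (1 : ℂ))).congr fun k => (st k).good.one.symm)

lemma GG_neg : GG (-1) = 1 :=
  tendsto_nhds_unique (GG_tendsto (by simp))
    ((tendsto_const_nhds (x := (1 : ℂ))).congr fun k => (st k).good.neg.symm)

lemma unif (i : ℕ) : TendstoUniformlyOn (fun k => (st k).G) GG atTop (SS i) := by
  rw [Metric.tendstoUniformlyOn_iff]
  intro ε hε
  have h1 : ∀ᶠ k in atTop, (st k).τ < ε / 2 := τ_tendsto.eventually (gt_mem_nhds (half_pos hε))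
  filter_upwards [h1, eventually_ge_atTop i] with k hk1 hk2 Z hZ
  rw [dist_eq_norm]
  have := GG_close hk2 hZ
  linarith

lemma GG_contOn (i : ℕ) : ContinuousOn GG (SS i) := by
  apply (unif i).continuousOn
  refine (Eventually.of_forall fun k => ?_).frequently
  exact (st k).good.cont.mono fun Z hZ => by rw [mem_closedBall_zero_iff]; exact hZ.1

lemma GG_contAt {Z : ℂ} (hZ : ‖Z‖ ≤ 1) (hne : Z ≠ -1) :
    ContinuousWithinAt GG (closedBall 0 1) Z := by
  have h1 : 0 < ‖1 + Z‖ := by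
    rw [norm_pos_iff]
    intro h2
    apply hne
    linear_combination h2
  obtain ⟨i, hi⟩ := (d_tendsto.eventually (gt_mem_nhds h1)).exists
  have hZi : Z ∈ SS i := ⟨hZ, Or.inl hi.le⟩
  have h2 := GG_contOn i Z hZi
  apply h2.mono_of_mem_nhdsWithin
  have h3 : ∀ᶠ W in 𝓝[closedBall 0 1] Z, (st i).d < ‖1 + W‖ := by
    have hc : Continuous fun W : ℂ => ‖1 + W‖ := by fun_prop
    exact (hc.tendsto Z).mono_left nhdsWithin_le_nhds |>.eventually (lt_mem_nhds hi)
  filter_upwards [h3, self_mem_nhdsWithin] with W hW1 hW2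
  rw [mem_closedBall_zero_iff] at hW2
  exact ⟨hW2, Or.inl hW1.le⟩

lemma GG_diff : DifferentiableOn ℂ GG (ball 0 1) := by
  have hloc : TendstoLocallyUniformlyOn (fun k => (st k).G) GG atTop (ball 0 1) := by
    rw [tendstoLocallyUniformlyOn_iff_forall_isCompact isOpen_ball]
    intro K hK hKc
    -- a compact subset of the open disc is contained in one of the sets
    have h1 : ∃ i, K ⊆ SS i := by
      rcases K.eq_empty_or_nonempty with h | h
      · exact ⟨0, by rw [h]; exact empty_subset _⟩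
      · have hc : ContinuousOn (fun W : ℂ => ‖1 + W‖) K := by fun_prop
        obtain ⟨Z0, hZ0, hmin⟩ := hKc.exists_isMinOn h hc
        have hpos : 0 < ‖1 + Z0‖ := by
          rw [norm_pos_iff]
          intro h2
          have h3 := hK hZ0
          have h4 : Z0 = -1 := by linear_combination h2
          rw [h4, mem_ball_zero_iff] at h3
          simp at h3
        obtain ⟨i, hi⟩ := (d_tendsto.eventually (gt_mem_nhds hpos)).exists
        refine ⟨i, fun Z hZ => ⟨?_, Or.inl (hi.le.trans (hmin hZ))⟩⟩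
        have := hK hZ
        rw [mem_ball_zero_iff] at this
        exact this.le
    obtain ⟨i, hi⟩ := h1
    exact (unif i).mono hi
  exact hloc.differentiableOn (Eventually.of_forall fun k => (st k).good.diff) isOpen_ball

/-- the inner function -/
noncomputable def ff (z : ℂ) : ℂ := z ^ 8 * GG (z ^ 3)

lemma ff_norm_le {z : ℂ} (hz : ‖z‖ ≤ 1) : ‖ff z‖ ≤ ‖z‖ ^ 8 := by
  rw [ff, norm_mul, norm_pow]
  have h1 := GG_le (norm_pow_le_one hz 3)
  have h2 : 0 ≤ ‖z‖ ^ 8 := by positivity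
  nlinarith

lemma ff_le_one {z : ℂ} (hz : ‖z‖ ≤ 1) : ‖ff z‖ ≤ 1 :=
  (ff_norm_le hz).trans (pow_le_one₀ (norm_nonneg _) hz)

lemma ff_zero : ff 0 = 0 := by simp [ff]

lemma ff_one : ff 1 = 1 := by rw [ff, one_pow, one_pow, GG_one, one_mul]

lemma ff_diff : DifferentiableOn ℂ ff (ball 0 1) := by
  unfold ff
  apply DifferentiableOn.mul (by fun_prop)
  apply GG_diff.comp (by fun_prop)
  intro z hz
  rw [mem_ball_zero_iff] at hz ⊢
  rw [norm_pow]
  exact pow_lt_one₀ (norm_nonneg _) hz (by norm_num)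

lemma ff_contAt {z : ℂ} (hz : ‖z‖ ≤ 1) (hne : z ^ 3 ≠ -1) :
    ContinuousWithinAt ff (closedBall 0 1) z := by
  unfold ff
  apply ContinuousWithinAt.mul (by fun_prop)
  have h1 : ContinuousWithinAt (fun z : ℂ => z ^ 3) (closedBall 0 1) z := by fun_prop
  exact ContinuousWithinAt.comp (f := fun z : ℂ => z ^ 3) (g := GG) (t := closedBall 0 1)
    (GG_contAt (norm_pow_le_one hz 3) hne) h1 fun w hw => by
      rw [mem_closedBall_zero_iff] at hw
      rw [mem_closedBall_zero_iff]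
      exact norm_pow_le_one hw 3

lemma ff_iter_norm_le {z : ℂ} (hz : ‖z‖ ≤ 1) (n : ℕ) : ‖ff^[n] z‖ ≤ ‖z‖ ^ n := by
  have h1 : ∀ n : ℕ, ‖ff^[n] z‖ ≤ ‖z‖ ^ (8 ^ n) := by
    intro n
    induction n with
    | zero => simp
    | succ n ih =>
      rw [Function.iterate_succ_apply']
      have h2 : ‖ff^[n] z‖ ≤ 1 := ih.trans (pow_le_one₀ (norm_nonneg _) hz)
      refine (ff_norm_le h2).trans ?_
      calc ‖ff^[n] z‖ ^ 8 ≤ (‖z‖ ^ (8 ^ n)) ^ 8 := by gcongr
        _ = ‖z‖ ^ (8 ^ (n + 1)) := by rw [← pow_mul, pow_succ]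
  refine (h1 n).trans (pow_le_pow_of_le_one (norm_nonneg _) hz ?_)
  exact (Nat.lt_pow_self (by norm_num)).le

/-- the closeness needed in the steps -/
lemma ff_close (k : ℕ) (z : ℂ) (hz : ‖z‖ ≤ 1) (hd : (st (k + 1)).d ≤ ‖1 + z ^ 3‖) :
    ‖ff z - TT (st (k + 1)).G z‖ ≤ 2 * (st (k + 1)).τ := by
  have e : ff z - TT (st (k + 1)).G z = z ^ 8 * (GG (z ^ 3) - (st (k + 1)).G (z ^ 3)) := by
    unfold ff TT
    ring
  rw [e, norm_mul]
  have h1 : z ^ 3 ∈ SS (k + 1) := ⟨norm_pow_le_one hz 3, Or.inl hd⟩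
  have h2 := GG_close le_rfl h1
  have h3 := norm_pow_le_one hz 8
  nlinarith [norm_nonneg (z ^ 8), norm_nonneg (GG (z ^ 3) - (st (k + 1)).G (z ^ 3))]

/-- radial limit at `-1` -/
lemma ff_radial : Tendsto (fun r : ℝ => ff (-(r : ℂ))) (𝓝[<] 1) (𝓝 1) := by
  have h1 : Tendsto (fun r : ℝ => GG ((-(r : ℂ)) ^ 3)) (𝓝[<] 1) (𝓝 1) := by
    have hm : (-1 : ℂ) ∈ SS 0 := ⟨by simp, Or.inr ⟨1, zero_le_one, le_rfl, by simp⟩⟩
    have h2 := (GG_contOn 0 (-1) hm).tendsto
    rw [GG_neg] at h2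
    apply h2.comp
    apply tendsto_nhdsWithin_of_tendsto_nhds_of_eventually_within
    · have : Continuous fun r : ℝ => (-(r : ℂ)) ^ 3 := by fun_prop
      have h3 := this.tendsto 1
      have e : (-((1 : ℝ) : ℂ)) ^ 3 = -1 := by
        push_cast
        ring
      rw [e] at h3
      exact h3.mono_left nhdsWithin_le_nhds
    · have h4 : ∀ᶠ r in 𝓝[<] (1 : ℝ), 0 < r :=
        (eventually_gt_nhds one_pos).filter_mono nhdsWithin_le_nhds
      filter_upwards [h4, self_mem_nhdsWithin] with r hr1 hr2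
      have hr2' : r < 1 := hr2
      have h5 : (-(r : ℂ)) ^ 3 = -((r ^ 3 : ℝ) : ℂ) := by
        push_cast
        ring
      have h6 : r ^ 3 ≤ 1 := pow_le_one₀ hr1.le hr2'.le
      rw [h5]
      refine ⟨?_, Or.inr ⟨r ^ 3, by positivity, h6, rfl⟩⟩
      rw [norm_neg, Complex.norm_real, Real.norm_eq_abs, abs_of_pos (by positivity)]
      exact h6
  have h2 : Tendsto (fun r : ℝ => (-(r : ℂ)) ^ 8) (𝓝[<] 1) (𝓝 1) := by
    have : Continuous fun r : ℝ => (-(r : ℂ)) ^ 8 := by fun_prop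
    have h3 := this.tendsto 1
    have e : (-((1 : ℝ) : ℂ)) ^ 8 = 1 := by
      push_cast
      ring
    rw [e] at h3
    exact h3.mono_left nhdsWithin_le_nhds
  have := h2.mul h1
  rw [one_mul] at this
  exact this

lemma ff_iter_radial (n : ℕ) (hn : 1 ≤ n) :
    Tendsto (fun r : ℝ => ff^[n] (-(r : ℂ))) (𝓝[<] 1) (𝓝 1) := by
  induction n, hn using Nat.le_induction with
  | base => simpa using ff_radial
  | succ n hn ih =>
    have h1 : ContinuousWithinAt ff (closedBall 0 1) 1 := ff_contAt (by simp) (by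
      rw [one_pow]
      intro h
      have := congrArg re h
      norm_num at this)
    have h2 := h1.tendsto
    rw [ff_one] at h2
    have h3 : Tendsto (fun r : ℝ => ff^[n] (-(r : ℂ))) (𝓝[<] 1) (𝓝[closedBall 0 1] 1) := by
      apply tendsto_nhdsWithin_of_tendsto_nhds_of_eventually_within _ ih
      have h4 : ∀ᶠ r in 𝓝[<] (1 : ℝ), 0 < r :=
        (eventually_gt_nhds one_pos).filter_mono nhdsWithin_le_nhds
      filter_upwards [h4, self_mem_nhdsWithin] with r hr1 hr2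
      have hr2' : r < 1 := hr2
      have hrn : ‖-(r : ℂ)‖ ≤ 1 := by
        rw [norm_neg, Complex.norm_real, Real.norm_eq_abs, abs_of_pos hr1]
        exact hr2'.le
      rw [mem_closedBall_zero_iff]
      exact (ff_iter_norm_le hrn n).trans (pow_le_one₀ (norm_nonneg _) hrn)
    refine (h2.comp h3).congr fun r => ?_
    rw [Function.comp, ← Function.iterate_succ_apply' (f := ff)]

end Q74.InnerIter
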