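import Mathlib
import Pool.Agent.Q74.InnerIter.Limit

/-!
# The coefficients and the sums
-/

set_option autoImplicit false

open Metric Set Filter Topology Complex
open scoped ComplexConjugate

namespace Q74.InnerIter

lemma E_zero : (st 0).E = 0 := rfl
lemma E_succ (k : ℕ) : (st (k + 1)).E = nn k + 2 * (k + 1) := (step k).hE
lemma E_lt_nn (k : ℕ) : (st k).E + 1 ≤ nn k := (step k).hN

lemma E_strictMono : StrictMono fun k => (st k).E :=
  strictMono_nat_of_lt_succ fun k => by
    have h1 := E_succ k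
    have h2 := E_lt_nn k
    show (st k).E < (st (k + 1)).E
    omega

lemma le_E (k : ℕ) : k ≤ (st k).E := E_strictMono.le_apply (x := k)

lemma exists_block (n : ℕ) : ∃ k, (st k).E ≤ n ∧ n < (st (k + 1)).E := by
  have h : ∃ k, n < (st (k + 1)).E := ⟨n, by have := le_E (n + 1); omega⟩
  classical
  refine ⟨Nat.find h, ?_, Nat.find_spec h⟩
  rcases Nat.eq_zero_or_pos (Nat.find h) with h0 | h0
  · rw [h0, E_zero]
    exact Nat.zero_le _
  · obtain ⟨j, hj⟩ : ∃ j, Nat.find h = j + 1 := ⟨Nat.find h - 1, by omega⟩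
    have h1 := Nat.find_min h (m := j) (by omega)
    rw [hj]
    omega

/-- the block coefficients -/
noncomputable def blk (k n : ℕ) : ℂ :=
  if nn k ≤ n ∧ n < (st (k + 1)).E then (-1) ^ k * (-1) ^ (n - nn k) / (2 * ((k : ℂ) + 1)) else 0

/-- the coefficients -/
noncomputable def aa (n : ℕ) : ℂ := ∑ k ∈ Finset.range (n + 1), blk k n

lemma aa_eq {k n : ℕ} (h1 : (st k).E ≤ n) (h2 : n < (st (k + 1)).E) : aa n = blk k n := by
  unfold aa
  apply Finset.sum_eq_single_of_mem
  · rw [Finset.mem_range]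
    have := le_E k
    omega
  · intro j _ hj
    unfold blk
    rw [if_neg]
    rintro ⟨h3, h4⟩
    rcases lt_or_gt_of_ne hj with h | h
    · have h5 : (st (j + 1)).E ≤ (st k).E := E_strictMono.monotone (by omega)
      omega
    · have h5 : (st (k + 1)).E ≤ (st j).E := E_strictMono.monotone (by omega)
      have := E_lt_nn j
      omega

lemma norm_blk_le (k n : ℕ) : ‖blk k n‖ ≤ 1 := by
  unfold blk
  split_ifs
  · rw [norm_div, norm_mul, norm_pow, norm_pow, norm_neg, norm_one, one_pow, one_pow, one_mul,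
      norm_mul]
    have h1 : ‖((k : ℂ) + 1)‖ = (k : ℝ) + 1 := by
      have : ((k : ℂ) + 1) = (((k : ℝ) + 1 : ℝ) : ℂ) := by push_cast; ring
      rw [this, Complex.norm_real, Real.norm_eq_abs, abs_of_pos (by positivity)]
    rw [h1, Complex.norm_ofNat, div_le_one (by positivity)]
    have : (0 : ℝ) ≤ k := Nat.cast_nonneg k
    linarith
  · simp

lemma norm_aa_le (n : ℕ) : ‖aa n‖ ≤ 1 := by
  obtain ⟨k, h1, h2⟩ := exists_block n
  rw [aa_eq h1 h2]
  exact norm_blk_le k n

lemma aa_gap {k n : ℕ} (h1 : (st k).E ≤ n) (h2 : n < nn k) : aa n = 0 := by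
  have h3 := E_succ k
  rw [aa_eq h1 (by omega)]
  unfold blk
  rw [if_neg (by omega)]

lemma aa_block (k i : ℕ) (hi : i < 2 * (k + 1)) :
    aa (nn k + i) = (-1) ^ k / (2 * ((k : ℂ) + 1)) * (-1) ^ i := by
  have h1 := E_lt_nn k
  have h3 := E_succ k
  rw [aa_eq (k := k) (by omega) (by omega)]
  unfold blk
  rw [if_pos (by omega), Nat.add_sub_cancel_left]
  ring

lemma aa_zero : aa 0 = 0 := aa_gap (k := 0) (by rw [E_zero]) (by have := E_lt_nn 0; omega)

/-- sums over the beginning of a block -/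
lemma sum_block (k j : ℕ) (hj : j ≤ 2 * (k + 1)) (y : ℕ → ℂ) :
    ∑ n ∈ Finset.Ico (st k).E (nn k + j), aa n * y n =
      (-1) ^ k / (2 * ((k : ℂ) + 1)) * ∑ i ∈ Finset.range j, (-1) ^ i * y (nn k + i) := by
  have h1 := E_lt_nn k
  rw [← Finset.sum_Ico_consecutive _ (show (st k).E ≤ nn k by omega)
    (show nn k ≤ nn k + j by omega)]
  have h2 : ∑ n ∈ Finset.Ico (st k).E (nn k), aa n * y n = 0 := by
    apply Finset.sum_eq_zero
    intro n hn
    rw [Finset.mem_Ico] at hn
    rw [aa_gap hn.1 hn.2, zero_mul]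
  rw [h2, zero_add, Finset.sum_Ico_eq_sum_range, Nat.add_sub_cancel_left, Finset.mul_sum]
  apply Finset.sum_congr rfl
  intro i hi
  rw [Finset.mem_range] at hi
  rw [aa_block k i (by omega)]
  ring

lemma partial_block {k : ℕ} (j : ℕ) (hj : j ≤ 2 * (k + 1)) :
    ∑ n ∈ Finset.Ico (st k).E (nn k + j), aa n =
      (-1) ^ k / (2 * ((k : ℂ) + 1)) * if Even j then 0 else 1 := by
  have h := sum_block k j hj (fun _ => 1)
  simp only [mul_one] at h
  rw [h, neg_one_geom_sum]

lemma sum_E (k : ℕ) : ∑ n ∈ Finset.range (st k).E, aa n = 0 := by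
  induction k with
  | zero => rw [E_zero]; simp
  | succ k ih =>
    have h1 := E_succ k
    have h2 := E_lt_nn k
    rw [h1, Finset.range_eq_Ico, ← Finset.sum_Ico_consecutive _ (Nat.zero_le _)
      (show (st k).E ≤ nn k + 2 * (k + 1) by omega), ← Finset.range_eq_Ico, ih,
      partial_block _ le_rfl, if_pos ⟨k + 1, by ring⟩]
    simp

lemma norm_coef (k : ℕ) : ‖((-1) ^ k / (2 * ((k : ℂ) + 1)) : ℂ)‖ = 1 / (2 * ((k : ℝ) + 1)) := by
  have h1 : ‖((k : ℂ) + 1)‖ = (k : ℝ) + 1 := by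
    have : ((k : ℂ) + 1) = (((k : ℝ) + 1 : ℝ) : ℂ) := by push_cast; ring
    rw [this, Complex.norm_real, Real.norm_eq_abs, abs_of_pos (by positivity)]
  rw [norm_div, norm_pow, norm_neg, norm_one, one_pow, norm_mul, Complex.norm_ofNat, h1]

lemma partial_bound {k m : ℕ} (h1 : (st k).E ≤ m) (h2 : m ≤ (st (k + 1)).E) :
    ‖∑ n ∈ Finset.range m, aa n‖ ≤ 1 / ((k : ℝ) + 1) := by
  have h3 := E_lt_nn k
  have h4 := E_succ k
  have hk : (0 : ℝ) < (k : ℝ) + 1 := by positivity
  rw [Finset.range_eq_Ico, ← Finset.sum_Ico_consecutive _ (Nat.zero_le _) h1,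
    ← Finset.range_eq_Ico, sum_E, zero_add]
  rcases Nat.lt_or_ge m (nn k) with h | h
  · have h5 : ∑ n ∈ Finset.Ico (st k).E m, aa n = 0 := by
      apply Finset.sum_eq_zero
      intro n hn
      rw [Finset.mem_Ico] at hn
      exact aa_gap hn.1 (by omega)
    rw [h5, norm_zero]
    positivity
  · obtain ⟨j, rfl⟩ := Nat.exists_eq_add_of_le h
    rw [partial_block j (by omega), norm_mul, norm_coef]
    have h6 : ‖(if Even j then (0 : ℂ) else 1)‖ ≤ 1 := by
      split_ifs <;> simp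
    have h7 : 1 / (2 * ((k : ℝ) + 1)) ≤ 1 / ((k : ℝ) + 1) := by
      apply one_div_le_one_div_of_le hk
      linarith
    have h8 : 0 ≤ 1 / (2 * ((k : ℝ) + 1)) := by positivity
    nlinarith

lemma partial_tendsto : Tendsto (fun m => ∑ n ∈ Finset.range m, aa n) atTop (𝓝 0) := by
  rw [Metric.tendsto_atTop]
  intro ε hε
  obtain ⟨K, hK⟩ := exists_nat_one_div_lt hε
  refine ⟨(st K).E, fun m hm => ?_⟩
  obtain ⟨k, h1, h2⟩ := exists_block m
  have hkK : K ≤ k := by
    by_contra h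
    push Not at h
    have : (st (k + 1)).E ≤ (st K).E := E_strictMono.monotone (by omega)
    omega
  rw [dist_zero_right]
  refine (partial_bound h1 h2.le).trans_lt (lt_of_le_of_lt ?_ hK)
  apply one_div_le_one_div_of_le (by positivity)
  have : (K : ℝ) ≤ k := by exact_mod_cast hkK
  linarith

/-- the sum over one period of the cycle -/
lemma cyc_sum (k : ℕ) : (-1) ^ k / (2 * ((k : ℂ) + 1)) * ∑ i ∈ Finset.range (2 * (k + 1)),
    (-1) ^ i * (if Even i then om else om ^ 2) = (-1) ^ k * ((om - om ^ 2) / 2) := by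
  have h : ∀ m : ℕ, ∑ i ∈ Finset.range (2 * m), ((-1) ^ i * (if Even i then om else om ^ 2)) =
      (m : ℂ) * (om - om ^ 2) := by
    intro m
    induction m with
    | zero => simp
    | succ m ih =>
      rw [show 2 * (m + 1) = 2 * m + 1 + 1 by ring, Finset.sum_range_succ, Finset.sum_range_succ,
        ih]
      have h1 : Even (2 * m) := ⟨m, by ring⟩
      have h2 : ¬ Even (2 * m + 1) := by
        rw [Nat.even_add_one]
        simp
      have h3 : (-1 : ℂ) ^ (2 * m + 1) = -1 := by rw [pow_succ, h1.neg_one_pow, one_mul]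
      rw [if_pos h1, if_neg h2, h1.neg_one_pow, h3]
      push_cast
      ring
  rw [h]
  have hk : ((k : ℂ) + 1) ≠ 0 := by exact_mod_cast Nat.succ_ne_zero k
  push_cast
  field_simp

lemma rr_norm {r : ℝ} (h0 : 0 ≤ r) (_h1 : r < 1) : ‖-(r : ℂ)‖ = r := by
  rw [norm_neg, Complex.norm_real, Real.norm_eq_abs, abs_of_nonneg h0]

lemma summable_main {z : ℂ} (hz : ‖z‖ < 1) : Summable fun n => aa n * ff^[n] z := by
  refine Summable.of_norm_bounded (g := fun n => ‖z‖ ^ n)
    (summable_geometric_of_lt_one (norm_nonneg _) hz) fun n => ?_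
  rw [norm_mul]
  have h1 := norm_aa_le n
  have h2 := ff_iter_norm_le hz.le n
  have h3 := norm_nonneg (aa n)
  have h4 := norm_nonneg (ff^[n] z)
  nlinarith

/-- The values at the test points. -/
lemma test_value (k : ℕ) :
    ‖(∑' n, aa n * ff^[n] (-((st (k + 1)).r : ℂ))) - (-1) ^ k * ((om - om ^ 2) / 2)‖ ≤
      3 / ((k : ℝ) + 1) := by
  obtain ⟨r, hr⟩ : ∃ r, r = (st (k + 1)).r := ⟨_, rfl⟩
  have hr0 : 0 ≤ r := by rw [hr]; exact (st (k + 1)).r0
  have hr1 : r < 1 := by rw [hr]; exact (st (k + 1)).r1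
  have hk : (0 : ℝ) < (k : ℝ) + 1 := by positivity
  obtain ⟨y, hy⟩ : ∃ y : ℕ → ℂ, y = fun n => ff^[n] (-(r : ℂ)) := ⟨_, rfl⟩
  have hzn : ‖-(r : ℂ)‖ < 1 := by rw [rr_norm hr0 hr1]; exact hr1
  obtain ⟨ho1, ho2⟩ := (step k).orbit ff (fun z hz => ff_le_one hz) (fun z hz hd => ff_close k z hz hd)
  rw [← hr] at ho1 ho2 ⊢
  have hsum : Summable fun n => aa n * y n := by rw [hy]; exact summable_main hzn
  have hE := E_succ k
  have hN := E_lt_nn k
  have hN' := E_lt_nn (k + 1)
  have e0 : (∑' n, aa n * ff^[n] (-(r : ℂ))) = ∑' n, aa n * y n := by rw [hy]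
  rw [e0, ← hsum.sum_add_tsum_nat_add (nn (k + 1))]
  -- the finite part
  have e1 : ∑ n ∈ Finset.range (nn (k + 1)), aa n * y n =
      ∑ n ∈ Finset.range (st k).E, aa n * y n +
        ∑ n ∈ Finset.Ico (st k).E (nn k + 2 * (k + 1)), aa n * y n := by
    rw [Finset.range_eq_Ico, Finset.range_eq_Ico,
      Finset.sum_Ico_consecutive _ (Nat.zero_le _) (show (st k).E ≤ nn k + 2 * (k + 1) by omega),
      ← Finset.sum_Ico_consecutive _ (Nat.zero_le (nn k + 2 * (k + 1)))
        (show nn k + 2 * (k + 1) ≤ nn (k + 1) by omega)]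
    have : ∑ n ∈ Finset.Ico (nn k + 2 * (k + 1)) (nn (k + 1)), aa n * y n = 0 := by
      apply Finset.sum_eq_zero
      intro n hn
      rw [Finset.mem_Ico] at hn
      rw [aa_gap (k := k + 1) (by omega) hn.2, zero_mul]
    rw [this, add_zero]
  -- first part
  have b1 : ‖∑ n ∈ Finset.range (st k).E, aa n * y n‖ ≤ 1 / ((k : ℝ) + 1) := by
    have h1 : ∑ n ∈ Finset.range (st k).E, aa n * y n =
        ∑ n ∈ Finset.range (st k).E, aa n * (y n - 1) := by
      have h2 := sum_E k
      have h3 : ∑ n ∈ Finset.range (st k).E, aa n * y n =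
          ∑ n ∈ Finset.range (st k).E, (aa n * (y n - 1) + aa n) := by
        apply Finset.sum_congr rfl
        intro n _
        ring
      rw [h3, Finset.sum_add_distrib, h2, add_zero]
    rw [h1]
    have hE1 : (0 : ℝ) < ((st k).E : ℝ) + 1 := by positivity
    calc ‖∑ n ∈ Finset.range (st k).E, aa n * (y n - 1)‖
        ≤ ∑ n ∈ Finset.range (st k).E, ‖aa n * (y n - 1)‖ := norm_sum_le _ _
      _ ≤ ∑ _n ∈ Finset.range (st k).E, 1 / (((k : ℝ) + 1) * ((st k).E + 1)) := by
          apply Finset.sum_le_sum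
          intro n hn
          rw [Finset.mem_range] at hn
          rcases Nat.eq_zero_or_pos n with h0 | h0
          · rw [h0, aa_zero, zero_mul, norm_zero]
            positivity
          · have h2 := ho1 n h0 hn.le
            have h3 : ‖y n - 1‖ ≤ 1 / (((k : ℝ) + 1) * ((st k).E + 1)) := by rw [hy]; exact h2
            rw [norm_mul]
            have h4 := norm_aa_le n
            nlinarith [norm_nonneg (aa n), norm_nonneg (y n - 1)]
      _ = ((st k).E : ℝ) * (1 / (((k : ℝ) + 1) * ((st k).E + 1))) := by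
          rw [Finset.sum_const, Finset.card_range, nsmul_eq_mul]
      _ ≤ 1 / ((k : ℝ) + 1) := by
          rw [mul_one_div, div_le_div_iff₀ (by positivity) hk]
          nlinarith
  -- the block
  have b2 : ‖∑ n ∈ Finset.Ico (st k).E (nn k + 2 * (k + 1)), aa n * y n -
      (-1) ^ k * ((om - om ^ 2) / 2)‖ ≤ 1 / ((k : ℝ) + 1) := by
    rw [sum_block k _ le_rfl, ← cyc_sum k, ← mul_sub, ← Finset.sum_sub_distrib, norm_mul,
      norm_coef]
    have h1 : ‖∑ i ∈ Finset.range (2 * (k + 1)), ((-1) ^ i * y (nn k + i) -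
        (-1) ^ i * (if Even i then om else om ^ 2))‖ ≤
        ∑ _i ∈ Finset.range (2 * (k + 1)), 1 / ((k : ℝ) + 1) := by
      refine (norm_sum_le _ _).trans (Finset.sum_le_sum fun i hi => ?_)
      rw [Finset.mem_range] at hi
      rw [← mul_sub, norm_mul, norm_pow, norm_neg, norm_one, one_pow, one_mul]
      have := ho2 i hi
      rw [hy]
      exact this
    rw [Finset.sum_const, Finset.card_range, nsmul_eq_mul] at h1
    push_cast at h1
    calc 1 / (2 * ((k : ℝ) + 1)) * ‖∑ i ∈ Finset.range (2 * (k + 1)), ((-1) ^ i * y (nn k + i) -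
        (-1) ^ i * (if Even i then om else om ^ 2))‖
        ≤ 1 / (2 * ((k : ℝ) + 1)) * (2 * ((k : ℝ) + 1) * (1 / ((k : ℝ) + 1))) := by gcongr
      _ = 1 / ((k : ℝ) + 1) := by field_simp
  -- the tail
  have b3 : ‖∑' n, aa (n + nn (k + 1)) * y (n + nn (k + 1))‖ ≤ 1 / ((k : ℝ) + 1) := by
    have hg : Summable fun n : ℕ => r ^ nn (k + 1) * r ^ n :=
      (summable_geometric_of_lt_one hr0 hr1).mul_left _
    have h1 : ∀ n, ‖aa (n + nn (k + 1)) * y (n + nn (k + 1))‖ ≤ r ^ nn (k + 1) * r ^ n := by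
      intro n
      rw [norm_mul, ← pow_add, Nat.add_comm (nn (k + 1)) n]
      have h2 := norm_aa_le (n + nn (k + 1))
      have h3 : ‖y (n + nn (k + 1))‖ ≤ r ^ (n + nn (k + 1)) := by
        rw [hy]
        have := ff_iter_norm_le hzn.le (n + nn (k + 1))
        rwa [rr_norm hr0 hr1] at this
      nlinarith [norm_nonneg (aa (n + nn (k + 1))), norm_nonneg (y (n + nn (k + 1)))]
    refine (tsum_of_norm_bounded hg.hasSum h1).trans ?_
    rw [tsum_mul_left, tsum_geometric_of_lt_one hr0 hr1]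
    have h2 := (step (k + 1)).hr
    rw [← hr] at h2
    have h3 : (0 : ℝ) < 1 - r := by linarith
    have h4 : r ^ nn (k + 1) * (1 - r)⁻¹ ≤ 1 / (((k + 1 : ℕ) : ℝ) + 1) := by
      rw [mul_inv_le_iff₀ h3]
      calc r ^ nn (k + 1) ≤ (1 - r) / (((k + 1 : ℕ) : ℝ) + 1) := h2
        _ = _ := by ring
    refine h4.trans ?_
    apply one_div_le_one_div_of_le hk
    push_cast
    linarith
  rw [e1]
  have e2 : ∑ n ∈ Finset.range (st k).E, aa n * y n +
        ∑ n ∈ Finset.Ico (st k).E (nn k + 2 * (k + 1)), aa n * y n +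
      ∑' n, aa (n + nn (k + 1)) * y (n + nn (k + 1)) - (-1) ^ k * ((om - om ^ 2) / 2) =
      ∑ n ∈ Finset.range (st k).E, aa n * y n +
      (∑ n ∈ Finset.Ico (st k).E (nn k + 2 * (k + 1)), aa n * y n -
        (-1) ^ k * ((om - om ^ 2) / 2)) +
      ∑' n, aa (n + nn (k + 1)) * y (n + nn (k + 1)) := by ring
  rw [e2]
  calc _ ≤ _ := norm_add₃_le
    _ ≤ 1 / ((k : ℝ) + 1) + 1 / ((k : ℝ) + 1) + 1 / ((k : ℝ) + 1) := by gcongr
    _ = _ := by ring

lemma r_tendsto : Tendsto (fun k => (st (k + 1)).r) atTop (𝓝[<] 1) := by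
  apply tendsto_nhdsWithin_of_tendsto_nhds_of_eventually_within
  · have h1 : Tendsto (fun k : ℕ => 1 - 1 / ((k : ℝ) + 1)) atTop (𝓝 (1 - 0)) :=
      tendsto_const_nhds.sub tendsto_one_div_add_atTop_nhds_zero_nat
    rw [sub_zero] at h1
    exact tendsto_of_tendsto_of_tendsto_of_le_of_le h1 tendsto_const_nhds
      (fun k => (step k).hr') (fun k => (st (k + 1)).r1.le)
  · exact Eventually.of_forall fun k => (st (k + 1)).r1

lemma om_ne : (om - om ^ 2) / 2 ≠ 0 := by
  intro h
  have h0 : om ≠ 0 := by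
    intro h1
    have := norm_om
    rw [h1, norm_zero] at this
    exact zero_ne_one this
  have h2 : om * (1 - om) = 0 := by linear_combination 2 * h
  rcases mul_eq_zero.1 h2 with h3 | h3
  · exact h0 h3
  · have h4 : om = 1 := by linear_combination -h3
    have h5 : om.im = Real.sin (2 * Real.pi / 3) := by
      rw [om, Complex.exp_ofReal_mul_I_im]
    rw [h4, one_im] at h5
    have h6 : 0 < Real.sin (2 * Real.pi / 3) := by
      apply Real.sin_pos_of_pos_of_lt_pi
      · positivity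
      · linarith [Real.pi_pos]
    linarith

lemma no_limit (ℓ : ℂ) :
    ¬ Tendsto (fun r : ℝ => ∑' n, aa n * ff^[n] (-(r : ℂ))) (𝓝[<] 1) (𝓝 ℓ) := by
  intro h
  have h1 := h.comp r_tendsto
  have h3 : Tendsto (fun k : ℕ => 3 / ((k : ℝ) + 1)) atTop (𝓝 0) := by
    have := (tendsto_one_div_add_atTop_nhds_zero_nat (𝕜 := ℝ)).const_mul 3
    rw [mul_zero] at this
    exact this.congr fun k => by ring
  have h2 : Tendsto (fun k : ℕ => (∑' n, aa n * ff^[n] (-((st (k + 1)).r : ℂ))) -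
      (-1) ^ k * ((om - om ^ 2) / 2)) atTop (𝓝 0) :=
    squeeze_zero_norm (fun k => test_value k) h3
  have h4 : Tendsto (fun k : ℕ => (-1 : ℂ) ^ k * ((om - om ^ 2) / 2)) atTop (𝓝 ℓ) := by
    have := h1.sub h2
    rw [sub_zero] at this
    refine this.congr fun k => ?_
    simp only [Function.comp]
    ring
  have h5 : Tendsto (fun k : ℕ => 2 * k) atTop atTop :=
    tendsto_atTop_mono (fun k => show k ≤ 2 * k by omega) tendsto_id
  have h6 : Tendsto (fun k : ℕ => 2 * k + 1) atTop atTop :=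
    tendsto_atTop_mono (fun k => show k ≤ 2 * k + 1 by omega) tendsto_id
  have h7 := h4.comp h5
  have h8 := h4.comp h6
  have h9 : ℓ = (om - om ^ 2) / 2 := by
    refine tendsto_nhds_unique h7 (tendsto_const_nhds.congr fun k => ?_)
    simp [pow_mul]
  have h10 : ℓ = -((om - om ^ 2) / 2) := by
    refine tendsto_nhds_unique h8 (tendsto_const_nhds.congr fun k => ?_)
    simp [pow_mul, pow_succ]
  have h11 : (om - om ^ 2) / 2 = 0 := by linear_combination (1 / 2 : ℂ) * h10 - (1 / 2 : ℂ) * h9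
  exact om_ne h11

end Q74.InnerIter
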